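import Mathlib

set_option autoImplicit false

/-!
SW project (helper745, MP_6bc78b_nt): local windows for the zeros of zeta, and the size of the derivative at the simple
zeros. Part A: definitions and statements that need only Mathlib.
-/

namespace Pool.Agent.Y745.SW

open Filter Topology MeasureTheory Complex

noncomputable section

/-! ### window functions -/

/-- the band-limited function with frequency data `B` -/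
def VF (B : ℝ → ℝ) (z : ℂ) : ℂ := ∫ ξ in (-1:ℝ)..1, (B ξ : ℂ) * cexp (I * ξ * z)

/-- the window at height `t` -/
def vt (B : ℝ → ℝ) (a t : ℝ) (z : ℂ) : ℂ := VF B (a * (z - t)) * cexp (-(z - t) ^ 2 / 2)

/-- the properties of a window function: almost `1` on `[-N, N]`, decay of order `j` outside -/
structure Wf (j : ℕ) (C N : ℝ) (B : ℝ → ℝ) : Prop where
  cont : Continuous B
  even : ∀ ξ, B (-ξ) = B ξ
  bd : ∀ ξ, |B ξ| ≤ C * N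
  zero : B 0 = N / Real.pi
  sq : (∫ ξ in (-1:ℝ)..1, B ξ ^ 2) ≤ N / Real.pi
  real : ∀ x : ℝ, (VF B x).im = 0 ∧ 0 ≤ (VF B x).re ∧ (VF B x).re ≤ 1
  inner : ∀ z : ℂ, |z.re| ≤ N → ‖VF B z - 1‖ ≤ C * Real.exp |z.im| / (1 + (N - |z.re|)) ^ j
  outer : ∀ z : ℂ, N ≤ |z.re| → ‖VF B z‖ ≤ C * Real.exp |z.im| / (1 + (|z.re| - N)) ^ j

/-- KER: existence of window functions -/
def P_KER : Prop := ∀ j : ℕ, ∃ C : ℝ, 1 ≤ C ∧ ∀ N : ℝ, 1 ≤ N → ∃ B : ℝ → ℝ, Wf j C N B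

/-- the half length of the active zone for zeros at distance `y` from the critical line -/
def th (a N N0 κ1 Y0 L y : ℝ) : ℝ := if y * L < Y0 then (N - N0) / a else (N + Real.exp (κ1 * (y * L))) / a

/-- the cost of a zero -/
def err (B : ℝ → ℝ) (a N N0 κ1 Y0 L d η1 : ℝ) (t : ℝ) (z : ℂ) : ℝ :=
  (if |z.re - t| ≤ th a N N0 κ1 Y0 L |z.im| + 2 * d then 2 * ‖1 - vt B a t z‖ + η1 else 0) +
  (if |z.re - t| ≤ th a N N0 κ1 Y0 L |z.im| - 2 * d then 0 else 2 * ‖vt B a t z‖ * Real.exp (|z.im| * L))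

/-- ER1: the integral of the cost of one zero -/
def P_ER1 : Prop := ∀ κ : ℝ, 0 < κ → ∃ (j : ℕ) (κ1 τ0 : ℝ), 0 < κ1 ∧ 0 < τ0 ∧ τ0 ≤ 1 ∧
  ∀ C : ℝ, 1 ≤ C → ∃ C2 : ℝ, 0 < C2 ∧ ∀ Y0 ε : ℝ, 1 ≤ Y0 → 0 < ε → ∃ N0 N1 : ℝ, 1 ≤ N0 ∧ 1 ≤ N1 ∧ 2 * N0 ≤ N1 ∧
  ∀ N τ : ℝ, N1 ≤ N → 0 < τ → τ ≤ τ0 → ∀ᶠ L : ℝ in atTop, ∀ d η1 : ℝ, 0 ≤ d → d ≤ 1 / L → 0 ≤ η1 → η1 ≤ 1 →
  ∀ B : ℝ → ℝ, Wf j C N B → ∀ z : ℂ, |z.im| ≤ 1 / 2 →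
    Integrable (fun t : ℝ => err B (τ * L) N N0 κ1 Y0 L d η1 t z) ∧
    ∫ t : ℝ, err B (τ * L) N N0 κ1 Y0 L d η1 t z ≤
      N / (τ * L) * (3 * η1 + ε + (if Y0 ≤ |z.im| * L then C2 * Real.exp (κ * (|z.im| * L) / 2) else 0))

/-! ### Dirichlet polynomials -/

/-- MVB: bilinear mean value theorem -/
def P_MVB : Prop := ∀ (X : ℕ) (T1 T2 : ℝ), T1 ≤ T2 → ∀ a b : ℕ → ℂ,
  ‖(∫ t in T1..T2, (∑ n ∈ Finset.Icc 1 X, a n * (n : ℂ) ^ (-(t : ℂ) * I)) *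
      (starRingEnd ℂ) (∑ n ∈ Finset.Icc 1 X, b n * (n : ℂ) ^ (-(t : ℂ) * I))) -
    ((T2 - T1 : ℝ) : ℂ) * ∑ n ∈ Finset.Icc 1 X, a n * (starRingEnd ℂ) (b n)‖ ≤
    8 * X * (1 + Real.log X) * (Real.sqrt (∑ n ∈ Finset.Icc 1 X, ‖a n‖ ^ 2) *
      Real.sqrt (∑ n ∈ Finset.Icc 1 X, ‖b n‖ ^ 2))

/-- the main term of the local zero sum, `L = log T`, `a = τ L` -/
def Mu (B : ℝ → ℝ) (a L u : ℝ) : ℝ :=
  L / Real.sqrt (2 * Real.pi) * ∫ ξ in (-1:ℝ)..1, B ξ * Real.exp (-(u + ξ * a) ^ 2 / 2)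

/-- the coefficients of the prime sum: positive frequencies -/
def Gp (B : ℝ → ℝ) (a u y : ℝ) : ℝ :=
  1 / Real.sqrt (2 * Real.pi) *
    ∫ ξ in (-1:ℝ)..1, (if 0 ≤ u + ξ * a then B ξ * Real.exp (-(u + ξ * a - y) ^ 2 / 2) else 0)

/-- the coefficients of the prime sum: negative frequencies -/
def Gm (B : ℝ → ℝ) (a u y : ℝ) : ℝ :=
  1 / Real.sqrt (2 * Real.pi) *
    ∫ ξ in (-1:ℝ)..1, (if 0 ≤ u + ξ * a then 0 else B ξ * Real.exp (-(u + ξ * a + y) ^ 2 / 2))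

/-- the coefficient of `n^{-it}` -/
def dp (c : ℕ → ℂ) (B : ℝ → ℝ) (a u : ℝ) (n : ℕ) : ℂ := c n * ((Real.sqrt n)⁻¹ * Gp B a u (Real.log n) : ℝ)

/-- the prime sum, positive frequencies -/
def DPp (c : ℕ → ℂ) (B : ℝ → ℝ) (a u : ℝ) (X : ℕ) (t : ℝ) : ℂ :=
  ∑ n ∈ Finset.Icc 1 X, dp c B a u n * (n : ℂ) ^ (-(t : ℂ) * I)

/-- the prime sum, negative frequencies -/
def DPm (c : ℕ → ℂ) (B : ℝ → ℝ) (a u : ℝ) (X : ℕ) (t : ℝ) : ℂ :=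
  ∑ n ∈ Finset.Icc 1 X, (starRingEnd ℂ) (c n) * ((Real.sqrt n)⁻¹ * Gm B a u (Real.log n) : ℝ) *
    (n : ℂ) ^ ((t : ℂ) * I)

/-- the length of the prime sums -/
def XT (ε T : ℝ) : ℕ := ⌊T ^ (1 - ε / 4)⌋₊

/-- MN: the mean square of the main term -/
def P_MN : Prop := ∀ (B R : ℝ → ℝ) (R0 : ℝ), Continuous B → (∀ ξ, B (-ξ) = B ξ) → Continuous R →
  (∀ x ∈ Set.Icc (0:ℝ) 1, 0 ≤ R x ∧ R x ≤ R0) → ∀ a L Λ : ℝ, 0 < a → 0 < L → 0 < Λ →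
    2 * ∫ x in (0:ℝ)..1, R x * Mu B a L (Λ * x) ^ 2 ≤ R0 * (L ^ 2 / (Λ * a)) * ∫ ξ in (-1:ℝ)..1, B ξ ^ 2

/-- DF: the sum of the squares of the coefficients -/
def P_DF : Prop := ∀ R : ℝ → ℝ, Continuous R → (∀ x ∈ Set.Icc (0:ℝ) 1, 0 ≤ R x) →
  (∃ K : ℝ, ∀ x y : ℝ, |R x - R y| ≤ K * |x - y|) → ∃ C : ℝ, 0 < C ∧
  ∀ B : ℝ → ℝ, Continuous B → (∀ ξ, B (-ξ) = B ξ) →
  ∀ ε τ η1 η : ℝ, 0 < ε → ε < 1 / 2 → 0 < τ → τ ≤ ε / 4 → 4 * τ ≤ η1 → η1 ≤ 1 → 0 < η →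
  ∀ᶠ T : ℝ in atTop,
    2 * ∫ y in η1..1, R y * ∑ n ∈ Finset.Icc 1 (XT ε T), (ArithmeticFunction.vonMangoldt n *
        ((Real.sqrt n)⁻¹ * Gp B (τ * Real.log T) ((1 - ε) * Real.log T * y) (Real.log n))) ^ 2 ≤
      2 * (1 - ε) / τ * (∫ x in (0:ℝ)..1, x * R x) * (∫ ξ in (-1:ℝ)..1, B ξ ^ 2) +
        C * (∫ ξ in (-1:ℝ)..1, B ξ ^ 2) + η

/-! ### the sum over the small primes -/

/-- the sum of `p^{-1/2-it}` over the primes `p ≤ y` -/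
def Py (y t : ℝ) : ℂ := ∑ p ∈ (Finset.Icc 1 ⌊y⌋₊).filter Nat.Prime, (p : ℂ) ^ (-(1 / 2 + t * I))

/-- the bound for the small primes: `T^{1 / loglog T}` -/
def xT (T : ℝ) : ℝ := Real.exp (Real.log T / Real.log (Real.log T))

/-- the sum over the small primes -/
def Px (T t : ℝ) : ℂ := Py (xT T) t

/-- the weight from the prime sums -/
def Dq (R : ℝ → ℝ) (c : ℕ → ℂ) (B : ℝ → ℝ) (ε τ η1 T t : ℝ) : ℝ :=
  2 * ∫ y in η1..1, R y * ‖DPp c B (τ * Real.log T) ((1 - ε) * Real.log T * y) (XT ε T) t‖ ^ 2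

/-- its expected mean value -/
def Zq (R : ℝ → ℝ) (c : ℕ → ℂ) (B : ℝ → ℝ) (ε τ η1 T : ℝ) : ℝ :=
  2 * ∫ y in η1..1, R y * ∑ n ∈ Finset.Icc 1 (XT ε T),
    ‖dp c B (τ * Real.log T) ((1 - ε) * Real.log T * y) n‖ ^ 2

/-- the arithmetic function `p ↦ p^{-1/2}` on the primes `p ≤ y` -/
def pA (y : ℝ) : ArithmeticFunction ℝ :=
  ⟨fun n => if n.Prime ∧ (n : ℝ) ≤ y then (Real.sqrt n)⁻¹ else 0, by simp [Nat.not_prime_zero]⟩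

/-- MC: the mean values of products of powers of the sum over the small primes -/
def P_MC : Prop := ∀ k l : ℕ, Tendsto (fun T : ℝ =>
  (∑ n ∈ Finset.Icc 1 (⌊xT T⌋₊ ^ (k + l)), (pA (xT T) ^ k) n * (pA (xT T) ^ l) n) /
    Real.log (Real.log T) ^ (((k:ℝ) + l) / 2)) atTop (𝓝 (if k = l then (k.factorial : ℝ) else 0))

/-- FM: the moments of the sum over the small primes -/
def P_FM : Prop := ∀ k l : ℕ, Tendsto (fun T : ℝ =>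
  (((1 / T) * (1 / Real.log (Real.log T) ^ (((k:ℝ) + l) / 2)) : ℝ) : ℂ) *
    ∫ t in (T + Real.log T)..(2 * T - Real.log T), Px T t ^ k * (starRingEnd ℂ) (Px T t) ^ l) atTop
  (𝓝 (if k = l then (k.factorial : ℂ) else 0))

/-- TI: the same with the weight from the prime sums -/
def P_TI : Prop := ∀ R : ℝ → ℝ, Continuous R → (∀ x ∈ Set.Icc (0:ℝ) 1, 0 ≤ R x) → ∀ B : ℝ → ℝ, Continuous B →
  ∀ c : ℕ → ℂ, (∀ n, ‖c n‖ ≤ ArithmeticFunction.vonMangoldt n) →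
  ∀ ε τ η1 : ℝ, 0 < ε → ε < 1 / 2 → 0 < τ → τ ≤ ε / 4 → 4 * τ ≤ η1 → η1 ≤ 1 → ∀ k l : ℕ,
  Tendsto (fun T : ℝ => (((1 / T) * (1 / Real.log (Real.log T) ^ (((k:ℝ) + l) / 2)) : ℝ) : ℂ) *
      (∫ t in (T + Real.log T)..(2 * T - Real.log T), Px T t ^ k * (starRingEnd ℂ) (Px T t) ^ l *
        ((Dq R c B ε τ η1 T t : ℝ) : ℂ)) -
    (if k = l then (k.factorial : ℂ) * ((Zq R c B ε τ η1 T : ℝ) : ℂ) else 0)) atTop (𝓝 0)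

/-- GM: the method of moments for the real part of a complex Gaussian variable -/
def P_GM : Prop := ∀ (μ : ℕ → Measure ℝ) (f : ℕ → ℝ → ℂ) (Z : ℝ), 0 ≤ Z → (∀ n, IsFiniteMeasure (μ n)) →
  (∀ n, Measurable (f n)) → (∀ n k, Integrable (fun x => ‖f n x‖ ^ k) (μ n)) →
  (∀ k l : ℕ, Tendsto (fun n => ∫ x, f n x ^ k * (starRingEnd ℂ) (f n x) ^ l ∂(μ n)) atTop
    (𝓝 (if k = l then (k.factorial : ℂ) * (Z : ℂ) else 0))) →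
  ∀ a b : ℝ, a < b → Tendsto (fun n => (μ n).real {x | a < Real.sqrt 2 * (f n x).re ∧ Real.sqrt 2 * (f n x).re < b})
    atTop (𝓝 (Z * (ProbabilityTheory.gaussianReal 0 1).real (Set.Ioo a b)))

/-- BV: the sum over the small primes is almost constant in short intervals -/
def P_BV : Prop := ∀ h ε : ℝ, 0 < h → 0 < ε → ∀ᶠ T : ℝ in atTop, ∃ Bd : Set ℝ, MeasurableSet Bd ∧
  Bd ⊆ Set.Icc T (2 * T) ∧ volume.real Bd ≤ ε * T ∧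
  ∀ t ∈ Set.Icc T (2 * T), t ∉ Bd → ∀ u : ℝ, |u| ≤ h / Real.log T → ‖Px T (t + u) - Px T t‖ ≤ 1

/-- DX: changing the number of primes -/
def P_DX : Prop := ∀ δ ε : ℝ, 0 < δ → δ ≤ 1 / 4 → 0 < ε → ∀ᶠ T : ℝ in atTop, ∀ y : ℝ, T ^ δ / 2 ≤ y → y ≤ 2 * T ^ δ →
  ∫ t in T..(2 * T), ‖Py y t - Px T t‖ ^ 2 ≤ ε * (T * Real.log (Real.log T))

/-! ### complex analysis -/

/-- HAR: the derivative at an isolated zero from one value near the zero -/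
def P_HAR : Prop := ∃ C : ℝ, 1 ≤ C ∧ ∀ (f : ℂ → ℂ) (ρ s1 : ℂ) (r M θ : ℝ), 0 < r → 0 < θ → θ ≤ 1 / 4 →
  AnalyticOnNhd ℂ f (Metric.closedBall ρ r) → f ρ = 0 → deriv f ρ ≠ 0 →
  (∀ z ∈ Metric.closedBall ρ r, z ≠ ρ → f z ≠ 0) → (∀ z ∈ Metric.closedBall ρ r, ‖f z‖ ≤ Real.exp M) →
  s1 ≠ ρ → ‖s1 - ρ‖ ≤ θ * r →
    |Real.log ‖deriv f ρ‖ - (Real.log ‖f s1‖ - Real.log ‖s1 - ρ‖)| ≤
      C * θ * (M - Real.log r - (Real.log ‖f s1‖ - Real.log ‖s1 - ρ‖))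

end

end Pool.Agent.Y745.SW
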