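import Pool.Agent.H370R2.PC1
import Pool.Agent.H370R2.EF
import Pool.Agent.Y745.SW.DefsA

set_option autoImplicit false

/-!
SW project (helper745, MP_6bc78b_nt), part B: definitions and statements about the zeros of zeta.
-/

namespace Pool.Agent.Y745.SW

open Filter Topology MeasureTheory Complex H370

noncomputable section

/-- the explicit formula for the zeros between `U1` and `U2` -/
structure EFD (c : ℕ → ℂ) (C T U1 U2 : ℝ) : Prop where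
  hc : ∀ n, ‖c n‖ ≤ ArithmeticFunction.vonMangoldt n
  h1 : T ≤ U1
  h2 : U1 ≤ T + 1
  h3 : 2 * T - 1 ≤ U2
  h4 : U2 ≤ 2 * T
  ef : ∀ u t : ℝ, 0 ≤ u → u ≤ Real.log T → T + Real.log T ≤ t → t ≤ 2 * T - Real.log T →
    ‖AA riemannZeta U1 U2 u t - (1 / Real.sqrt (2 * Real.pi) : ℝ) * (Real.log T * cexp (I * u * t) *
      Real.exp (-u ^ 2 / 2) - PP c u t)‖ ≤ C * Real.exp (-u)

/-- the local sum over the zeros -/
def St (B : ℝ → ℝ) (a U1 U2 u t : ℝ) : ℂ :=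
  ∑ s ∈ Zf riemannZeta U1 U2, (mult riemannZeta s : ℂ) * (vt B a t (zz s) * cexp (I * u * zz s))

/-- EF: the explicit formula for the local sums -/
def P_EF : Prop := ∀ ε τ : ℝ, 0 < ε → ε < 1 / 2 → 0 < τ → τ ≤ ε / 4 → ∀ (c : ℕ → ℂ) (C0 : ℝ), ∃ C1 : ℝ, 0 < C1 ∧
  ∀ (B : ℝ → ℝ) (K : ℝ), Continuous B → (∀ ξ, B (-ξ) = B ξ) → (∀ ξ, |B ξ| ≤ K) →
  ∀ᶠ T : ℝ in atTop, ∀ U1 U2 : ℝ, EFD c C0 T U1 U2 →
    ∀ t u : ℝ, T + Real.log T ≤ t → t ≤ 2 * T - Real.log T → 0 ≤ u → u ≤ (1 - ε) * Real.log T →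
      ‖St B (τ * Real.log T) U1 U2 u t - cexp (I * u * t) * ((Mu B (τ * Real.log T) (Real.log T) u : ℝ) -
        DPp c B (τ * Real.log T) u (XT ε T) t - DPm c B (τ * Real.log T) u (XT ε T) t)‖ ≤ C1 * K / Real.log T

/-- SM: the mean square of the difference from the main term -/
def P_SM : Prop := ∃ C : ℝ, 0 < C ∧ ∀ ε τ : ℝ, 0 < ε → ε < 1 / 2 → 0 < τ → τ ≤ ε / 4 → ∀ (c : ℕ → ℂ) (C0 : ℝ),
  ∀ (B : ℝ → ℝ) (K : ℝ), Continuous B → (∀ ξ, B (-ξ) = B ξ) → (∀ ξ, |B ξ| ≤ K) →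
  ∀ᶠ T : ℝ in atTop, ∀ U1 U2 : ℝ, EFD c C0 T U1 U2 → ∀ u : ℝ, 0 ≤ u → u ≤ (1 - ε) * Real.log T →
    ∫ t in (T + Real.log T)..(2 * T - Real.log T), ‖St B (τ * Real.log T) U1 U2 u t -
      cexp (I * u * t) * (Mu B (τ * Real.log T) (Real.log T) u : ℝ)‖ ^ 2 ≤
      C * K ^ 2 * (T * (1 + u / (τ * Real.log T)))

open Classical in
/-- simple critical zeros in `(A, B]` at distance at least `d` from the other zeros in `(A, B]` -/
def isoS (A B d : ℝ) : Finset ℂ :=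
  (Zf riemannZeta A B).filter (fun s => s.re = 1 / 2 ∧ mult riemannZeta s = 1 ∧
    ∀ s' ∈ Zf riemannZeta A B, s' ≠ s → d ≤ ‖s - s'‖)

open Classical in
/-- DER: the derivative at almost all isolated zeros -/
def P_DER : Prop := ∀ δ ε : ℝ, 0 < δ → δ ≤ 1 / 10 → 0 < ε → ∀ᶠ T : ℝ in atTop, ∀ U1 U2 : ℝ,
  T ≤ U1 → U1 ≤ T + 1 → 2 * T - 1 ≤ U2 → U2 ≤ 2 * T →
  (((isoS U1 U2 (δ / Real.log T)).filter (fun s => T + 2 ≤ s.im ∧ s.im ≤ 2 * T - 2 ∧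
    ε * Real.sqrt (Real.log (Real.log T)) < |Real.log ‖deriv riemannZeta s‖ - Real.log (Real.log T) -
      (Px T s.im).re|)).card : ℝ) ≤ ε * (T * Real.log T)

end

end Pool.Agent.Y745.SW
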