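import Pool.Agent.TH803.CL.Geo
import Pool.Agent.Y745.SW.DefsB

set_option autoImplicit false

/-!
SW project (helper745, MP_6bc78b_nt), part C: statements of the steps of the assembly.
-/

namespace Pool.Agent.Y745.SW

open Filter Topology MeasureTheory Complex H370 TH803UC TH803CL

noncomputable section

/-- DI: the local trace inequality with weights -/
def P_DI : Prop := ∀ (Z : Finset ℂ) (m : ℂ → ℕ) (v : ℂ → ℂ) (th : ℝ → ℝ) (Λ L d η1 t : ℝ),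
  (∀ z ∈ Z, (starRingEnd ℂ) z ∈ Z) → (∀ z ∈ Z, 1 ≤ m z) → (∀ z ∈ Z, m ((starRingEnd ℂ) z) = m z) →
  (∀ z, v ((starRingEnd ℂ) z) = (starRingEnd ℂ) (v z)) → (∀ z : ℂ, z.im = 0 → 0 ≤ (v z).re) →
  0 ≤ Λ → Λ ≤ L → 10 ≤ L → 0 < d → d * L ≤ 1 / 10 → 0 ≤ η1 → η1 ≤ 1 →
  (∀ u : ℂ, ‖u‖ ≤ 6 * d → ‖kap (Λ * u) - 1‖ ≤ η1) →
  (∀ y, 0 ≤ y → y < d → th y = th 0) →
  2 * ∑ z ∈ Z.filter (fun z => 0 ≤ z.im), cw m z * (v z).re -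
      (∑ z ∈ Z, ∑ w ∈ Z, (m z : ℂ) * (m w : ℂ) * (v z * v w * kap (Λ * (z - w)) ^ 2)).re ≤
    (((isoP Z m d).filter (fun z => |z.re - t| ≤ th 0)).card : ℝ) +
    10 * ∑ z ∈ Z.filter (fun z => 0 ≤ z.im), cw m z *
      ((if |z.re - t| ≤ th |z.im| + 2 * d then 2 * ‖1 - v z‖ + η1 else 0) +
        (if |z.re - t| ≤ th |z.im| - 2 * d then 0 else 2 * ‖v z‖ * Real.exp (|z.im| * L)))

/-- ERS: the total cost of the zeros -/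
def P_ERS : Prop := ∃ (j : ℕ) (τ0 : ℝ), 0 < τ0 ∧ τ0 ≤ 1 ∧ ∀ C : ℝ, 1 ≤ C → ∀ ε : ℝ, 0 < ε →
  ∃ κ1 Y0 η1 N0 N1 : ℝ, 1 ≤ Y0 ∧ 0 < η1 ∧ η1 ≤ 1 ∧ 1 ≤ N0 ∧ 1 ≤ N1 ∧ 2 * N0 ≤ N1 ∧
  ∀ N τ : ℝ, N1 ≤ N → 0 < τ → τ ≤ τ0 → ∀ B : ℝ → ℝ, Wf j C N B → ∀ᶠ T : ℝ in atTop, ∀ d : ℝ, 0 ≤ d →
    d ≤ 1 / Real.log T → ∀ U1 U2 : ℝ, T ≤ U1 → U2 ≤ 2 * T → ∀ t1 t2 : ℝ, t1 ≤ t2 →
    ∫ t in t1..t2, ∑ s ∈ Zf riemannZeta U1 U2, (mult riemannZeta s : ℝ) *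
      err B (τ * Real.log T) N N0 κ1 Y0 (Real.log T) d η1 t (zz s) ≤ ε * (N / τ * T)

/-- TRK: the spectral form of the weighted pair sum -/
def P_TRK : Prop := ∀ (B : ℝ → ℝ) (a t Λ U1 U2 : ℝ), Continuous B → (∀ ξ, B (-ξ) = B ξ) → 1 ≤ U1 →
  (∑ s ∈ Zf riemannZeta U1 U2, ∑ s' ∈ Zf riemannZeta U1 U2, (mult riemannZeta s : ℂ) * (mult riemannZeta s' : ℂ) *
      (vt B a t (zz s) * vt B a t (zz s') * kap (Λ * (zz s - zz s')) ^ 2)).re =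
    2 * ∫ x in (0:ℝ)..1, Rf x * ‖St B a U1 U2 (Λ * x) t‖ ^ 2

/-- the points where the normalised sum over the small primes lies in `(a, b)` -/
def SB (a b T : ℝ) : Set ℝ := {t ∈ Set.Icc (T + Real.log T) (2 * T - Real.log T) |
  a < Real.sqrt 2 * ((Px T t).re / Real.sqrt (Real.log (Real.log T))) ∧
    Real.sqrt 2 * ((Px T t).re / Real.sqrt (Real.log (Real.log T))) < b}

/-- IND: the normalised sum over the small primes is Gaussian and independent of the weight -/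
def P_IND : Prop := ∀ R : ℝ → ℝ, Continuous R → (∀ x ∈ Set.Icc (0:ℝ) 1, 0 ≤ R x) → ∀ B : ℝ → ℝ, Continuous B →
  ∀ c : ℕ → ℂ, (∀ n, ‖c n‖ ≤ ArithmeticFunction.vonMangoldt n) →
  ∀ ε τ η1 : ℝ, 0 < ε → ε < 1 / 2 → 0 < τ → τ ≤ ε / 4 → 4 * τ ≤ η1 → η1 ≤ 1 →
  (∃ K0 : ℝ, ∀ᶠ T : ℝ in atTop, Zq R c B ε τ η1 T ≤ K0) → ∀ a b δ : ℝ, a < b → 0 < δ → ∀ᶠ T : ℝ in atTop,
    MeasurableSet (SB a b T) ∧
    |volume.real (SB a b T) - T * (ProbabilityTheory.gaussianReal 0 1).real (Set.Ioo a b)| ≤ δ * T ∧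
    |(∫ t in SB a b T, Dq R c B ε τ η1 T t) -
      T * (ProbabilityTheory.gaussianReal 0 1).real (Set.Ioo a b) * Zq R c B ε τ η1 T| ≤ δ * T

end

end Pool.Agent.Y745.SW
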