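import Pool.Agent.Y745.SW.Blk8
import Pool.Agent.Y248.SW.KER
import Pool.Agent.Y627.SW.ER1
import Pool.Agent.Y627.SW.MN
import Pool.Agent.Y840.SW.MVB
import Pool.Agent.Y240.SW.DF
import Pool.Agent.Y655.SW.MC
import Pool.Agent.Y41.SW.FM
import Pool.Agent.Y498.SW.TI
import Pool.Agent.Y586.SW.GM
import Pool.Agent.Y895.SW.BVDX
import Pool.Agent.Y655.SW.Har
import Pool.Agent.Y228.SW.EF
import Pool.Agent.Y274.SW.SM
import Pool.Agent.Y141.SW.DerMain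
import Pool.Agent.Y833.SW.Di
import Pool.Agent.Y655.SW.Ers
import Pool.Agent.Y655.SW.Trk
import Pool.Agent.Y275.SW.Ind

set_option autoImplicit false

/-! SW project: assembly. -/

namespace Pool.Agent.Y745.SW

open H370

theorem a_EF : P_EF := Pool.Agent.Y228.SW.t_EF

theorem a_SM : P_SM := Pool.Agent.Y274.SW.t_SM Pool.Agent.Y840.SW.t_MVB a_EF

theorem a_ERS : P_ERS := Pool.Agent.Y655.SW.t_ERS Pool.Agent.Y627.SW.t_ER1

theorem a_BLK : P_BLK := blk good_zeta Pool.Agent.Y248.SW.t_KER Pool.Agent.Y833.SW.t_DI a_ERS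
  Pool.Agent.Y655.SW.t_TRK Pool.Agent.Y627.SW.t_MN Pool.Agent.Y240.SW.t_DF a_EF a_SM

theorem a_FM : P_FM := Pool.Agent.Y41.SW.t_FM Pool.Agent.Y840.SW.t_MVB Pool.Agent.Y655.SW.t_MC

theorem a_TI : P_TI := Pool.Agent.Y498.SW.t_TI Pool.Agent.Y840.SW.t_MVB Pool.Agent.Y655.SW.t_MC

theorem a_IND : P_IND := Pool.Agent.Y275.SW.t_IND a_FM a_TI Pool.Agent.Y586.SW.t_GM

theorem a_DER : P_DER := Pool.Agent.Y141.SW.t_DER Pool.Agent.Y655.SW.t_HAR Pool.Agent.Y895.SW.t_BV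
  Pool.Agent.Y895.SW.t_DX

/-- **the law of the derivative at the simple zeros, lower half** -/
theorem final {a b ε : ℝ} (hab : a < b) (hε : 0 < ε) : ∃ δ : ℝ, 0 < δ ∧ ∃ X0 : ℝ, ∀ X : ℝ, X0 ≤ X →
    ((2 - cMTinv) * Gm01 a b - ε) * (NN riemannZeta 0 X : ℝ) ≤ (PQn (Qs a b δ) 0 X : ℝ) :=
  law good_zeta a_BLK a_IND Pool.Agent.Y895.SW.t_BV a_DER hab hε

end Pool.Agent.Y745.SW
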