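import Pool.Agent.Y745.SW.Blk4

set_option autoImplicit false

/-! The block theorem. -/

namespace Pool.Agent.Y745.SW

open Filter Topology MeasureTheory Complex H370 TH803UC TH803CL

noncomputable section

open Classical in
/-- BLK: isolated simple zeros near a set of heights -/
def P_BLK : Prop := ∀ ε : ℝ, 0 < ε → ε ≤ 1 → ∃ (δ h εs τ : ℝ) (B : ℝ → ℝ), 0 < δ ∧ δ ≤ 1 / 10 ∧ 0 < h ∧
  0 < εs ∧ εs < 1 / 2 ∧ 0 < τ ∧ τ ≤ εs / 4 ∧ Continuous B ∧
  ∀ (c : ℕ → ℂ) (C0 : ℝ), (∀ n, ‖c n‖ ≤ ArithmeticFunction.vonMangoldt n) →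
    (∃ K0 : ℝ, ∀ᶠ T : ℝ in atTop, Zq Rf c B εs τ (4 * τ) T ≤ K0) ∧
    ∀ᶠ T : ℝ in atTop, ∀ U1 U2 : ℝ, EFD c C0 T U1 U2 → ∀ S : Set ℝ, MeasurableSet S →
      S ⊆ Set.Icc (T + Real.log T) (2 * T - Real.log T) →
      (∫ t in S, Dq Rf c B εs τ (4 * τ) T t) ≤ volume.real S * Zq Rf c B εs τ (4 * τ) T + T →
      ((2 - cMTinv) * volume.real S - ε * T) * (Real.log T / (2 * Real.pi)) ≤
        (((isoS U1 U2 (δ / Real.log T)).filter (fun s => ∃ t ∈ S, |s.im - t| ≤ h / Real.log T)).card : ℝ)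

lemma kap_cont : Continuous kap := by
  unfold kap
  apply intervalIntegral.continuous_parametric_intervalIntegral_of_continuous'
  have : Continuous g0 := by unfold g0; fun_prop
  fun_prop

lemma kap_near {η : ℝ} (hη : 0 < η) : ∃ δ : ℝ, 0 < δ ∧ δ ≤ 1 / 10 ∧ ∀ w : ℂ, ‖w‖ ≤ 6 * δ → ‖kap w - 1‖ ≤ η := by
  have h := kap_cont.tendsto 0
  rw [kap_zero, Metric.tendsto_nhds] at h
  have h1 := h η hη
  rw [Metric.eventually_nhds_iff] at h1
  obtain ⟨ρ, hρ, h2⟩ := h1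
  refine ⟨min (1 / 10) (ρ / 12), by positivity, min_le_left _ _, fun w hw => ?_⟩
  have h3 : min (1 / 10) (ρ / 12) ≤ ρ / 12 := min_le_right _ _
  have h4 := h2 (y := w) (by rw [dist_zero_right]; linarith)
  rw [dist_eq_norm] at h4
  exact h4.le

/-- smallness of the main term away from `0` -/
lemma tail_ev (K τ : ℝ) (hτ : 0 < τ) : ∀ᶠ L : ℝ in atTop, 2 * K * (L * Real.exp (-(τ * L) ^ 2 / 2)) ≤ 1 / 2 := by
  have h1 : Tendsto (fun L : ℝ => 2 * K * (L * Real.exp (-(τ * L) ^ 2 / 2))) atTop (𝓝 (2 * K * 0)) := by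
    refine Tendsto.const_mul _ ?_
    have h2 : Tendsto (fun L : ℝ => L * Real.exp (-(τ ^ 2 / 2 * L))) atTop (𝓝 0) := by
      have h3 := (Real.tendsto_pow_mul_exp_neg_atTop_nhds_zero 1).comp
        (tendsto_id.const_mul_atTop (r := τ ^ 2 / 2) (by positivity))
      have h4 := h3.const_mul ((τ ^ 2 / 2)⁻¹)
      rw [mul_zero] at h4
      refine h4.congr fun L => ?_
      simp only [Function.comp, id, pow_one]
      have : τ ^ 2 / 2 ≠ 0 := by positivity
      field_simp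
    refine squeeze_zero' ?_ ?_ h2
    · filter_upwards [eventually_ge_atTop 0] with L hL
      positivity
    · filter_upwards [eventually_ge_atTop 1] with L hL
      refine mul_le_mul_of_nonneg_left ?_ (by linarith)
      rw [Real.exp_le_exp]
      have : 0 ≤ τ ^ 2 := sq_nonneg _
      nlinarith [mul_nonneg this (by nlinarith : (0:ℝ) ≤ L ^ 2 - L)]
  rw [mul_zero] at h1
  exact h1.eventually_le_const (by norm_num)

/-- the final computation -/
lemma final_calc {A T N τ ε c R0 R1 CD CS C K q η εs ε2 M I2 Mu0 Z DD count L X : ℝ}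
    (hA0 : 0 ≤ A) (hAT : A ≤ T) (hN : 1 ≤ N) (hτ : 0 < τ) (hτ1 : τ ≤ 1) (hε : 0 < ε) (hε1 : ε ≤ 1)
    (hc : R0 + 2 * R1 = c) (hc2 : c ≤ 3 / 2) (hR0 : 0 ≤ R0) (hR1 : 0 ≤ R1) (hCD : 0 < CD) (hCS : 0 < CS) (hC : 1 ≤ C)
    (hK : K = C * N) (hη : η = ε / 64) (hεs : εs = ε / 64) (hε2 : ε2 = ε / (160 * Real.pi))
    (hM : M = N / (Real.pi * τ)) (hI0 : 0 ≤ I2) (hI : I2 ≤ N / Real.pi) (hMu : (1 - ε / 64) * M ≤ Mu0)
    (hZ : Z ≤ 2 * (1 - εs) / τ * R1 * I2 + CD * I2 + 1) (hDD : DD ≤ A * Z + T) (hq : 0 ≤ q)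
    (h1 : τ * (16 * Real.pi * (C * (1 + CS))) ≤ ε) (h2 : τ * (16 * Real.pi * (q + 4)) ≤ ε)
    (h3 : τ * (320 * Real.pi * (q * CS * C ^ 2 * N)) ≤ ε) (h4 : τ * (32 * CD) ≤ ε) (hL : 0 < L)
    (hX : X = 2 * (N / (τ * L)) * count)
    (hmain : A * (2 * Mu0 - K - (1 + η) * (R0 / ((1 - εs) * τ) * I2) - q) - CS * K * T -
      q * (20 * τ * (CS * K ^ 2 * T)) - (1 + η) * DD - 10 * (ε2 * (N / τ * T)) ≤ X) :
    ((2 - c) * A - ε * T) * (L / (2 * Real.pi)) ≤ count := by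
  have hpi := Real.pi_pos
  have hT0 : 0 ≤ T := hA0.trans hAT
  have hN0 : 0 < N := by linarith
  have hM0 : 0 < M := by rw [hM]; positivity
  have hη0 : 0 < η := by rw [hη]; positivity
  have hη1 : η ≤ 1 / 64 := by rw [hη]; linarith
  have hεs1 : εs ≤ 1 / 64 := by rw [hεs]; linarith
  have hεs0 : 0 < εs := by rw [hεs]; positivity
  -- rewriting in terms of `M`
  have hMτ : M * (Real.pi * τ) = N := by rw [hM]; field_simp
  -- (a) the terms with `A`
  have ha1 : R0 / ((1 - εs) * τ) * I2 ≤ (1 + 2 * εs) * R0 * M := by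
    have e1 : R0 / ((1 - εs) * τ) * I2 ≤ R0 / ((1 - εs) * τ) * (N / Real.pi) := by
      have : 0 < 1 - εs := by linarith
      gcongr
    have e2 : R0 / ((1 - εs) * τ) * (N / Real.pi) = 1 / (1 - εs) * (R0 * M) := by
      rw [hM]
      have : (1 - εs) ≠ 0 := by linarith
      field_simp
    have e3 : 1 / (1 - εs) ≤ 1 + 2 * εs := by
      rw [div_le_iff₀ (by linarith)]
      nlinarith
    have e4 : 0 ≤ R0 * M := by positivity
    calc _ ≤ _ := e1
      _ = 1 / (1 - εs) * (R0 * M) := e2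
      _ ≤ (1 + 2 * εs) * (R0 * M) := mul_le_mul_of_nonneg_right e3 e4
      _ = _ := by ring
  have ha2 : Z ≤ (2 * R1 + CD * τ) * M + 1 := by
    have e1 : 2 * (1 - εs) / τ * R1 * I2 ≤ 2 / τ * R1 * (N / Real.pi) := by
      have : 2 * (1 - εs) ≤ 2 := by linarith
      have h0 : 0 ≤ 1 - εs := by linarith
      gcongr
    have e2 : CD * I2 ≤ CD * (N / Real.pi) := by gcongr
    have e3 : 2 / τ * R1 * (N / Real.pi) = 2 * R1 * M := by rw [hM]; field_simp
    have e4 : CD * (N / Real.pi) = CD * τ * M := by rw [hM]; field_simp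
    rw [e3] at e1
    rw [e4] at e2
    linarith
  have ha3 : DD ≤ A * ((2 * R1 + CD * τ) * M + 1) + T := by
    have := mul_le_mul_of_nonneg_left ha2 hA0
    linarith
  -- (b) the terms with `T`
  have hb1 : K * (1 + CS) ≤ ε / 16 * M := by
    rw [hK, hM]
    rw [mul_div_assoc', le_div_iff₀ (by positivity)]
    have := mul_le_mul_of_nonneg_right h1 hN0.le
    have e : C * N * (1 + CS) * (Real.pi * τ) = τ * (16 * Real.pi * (C * (1 + CS))) * N / 16 := by ring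
    rw [e]
    linarith
  have hb2 : q + 4 ≤ ε / 16 * M := by
    rw [hM, mul_div_assoc', le_div_iff₀ (by positivity)]
    have e1 : (q + 4) * (Real.pi * τ) ≤ ε / 16 := by linarith
    have e2 : ε / 16 * 1 ≤ ε / 16 * N := mul_le_mul_of_nonneg_left hN (by positivity)
    linarith
  have hb3 : q * (20 * τ * (CS * K ^ 2)) ≤ ε / 16 * M := by
    rw [hK, hM, mul_div_assoc', le_div_iff₀ (by positivity)]
    have e1 : q * (20 * τ * (CS * (C * N) ^ 2)) * (Real.pi * τ) =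
        τ * (τ * (320 * Real.pi * (q * CS * C ^ 2 * N))) * N / 16 := by ring
    rw [e1]
    have e2 : τ * (τ * (320 * Real.pi * (q * CS * C ^ 2 * N))) ≤ 1 * ε := by
      refine mul_le_mul hτ1 h3 (by positivity) (by norm_num)
    have e3 := mul_le_mul_of_nonneg_right e2 hN0.le
    linarith
  have hb4 : 10 * (ε2 * (N / τ)) = ε / 16 * M := by
    rw [hε2, hM]
    field_simp
    ring
  -- conclusion
  have hkey : M * ((2 - c) * A - ε * T) ≤ X := by
    refine le_trans ?_ hmain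
    have hcd : CD * τ ≤ ε / 32 := by linarith
    have g1 : A * ((1 + η) * (R0 / ((1 - εs) * τ) * I2)) ≤ A * ((1 + η) * ((1 + 2 * εs) * R0 * M)) := by
      gcongr
    have g2 : (1 + η) * DD ≤ (1 + η) * (A * ((2 * R1 + CD * τ) * M + 1) + T) := by gcongr
    have g3 : A * ((1 - ε / 64) * M) ≤ A * Mu0 := mul_le_mul_of_nonneg_left hMu hA0
    have g4 : T * (K * (1 + CS)) ≤ T * (ε / 16 * M) := mul_le_mul_of_nonneg_left hb1 hT0
    have g5 : T * (q + 4) ≤ T * (ε / 16 * M) := mul_le_mul_of_nonneg_left hb2 hT0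
    have g6 : T * (q * (20 * τ * (CS * K ^ 2))) ≤ T * (ε / 16 * M) := mul_le_mul_of_nonneg_left hb3 hT0
    have hK0 : 0 ≤ K := by rw [hK]; positivity
    have g7 : A * K ≤ T * K := mul_le_mul_of_nonneg_right hAT hK0
    have g8 : A * q ≤ T * q := mul_le_mul_of_nonneg_right hAT hq
    have g9 : (1 + η) * (A + T) ≤ 4 * T := by nlinarith
    -- the coefficient of `A * M`
    have g10 : (1 + η) * ((1 + 2 * εs) * R0) + (1 + η) * (2 * R1 + CD * τ) ≤ c + ε / 4 := by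
      have hR0' : R0 ≤ 3 / 2 := by linarith
      have k1 : (1 + η) * (1 + 2 * εs) ≤ 1 + 5 * ε / 64 := by rw [hη, hεs]; nlinarith
      have k2 : (1 + η) * ((1 + 2 * εs) * R0) ≤ (1 + 5 * ε / 64) * R0 := by
        rw [← mul_assoc]; exact mul_le_mul_of_nonneg_right k1 hR0
      have k3 : (1 + η) * (CD * τ) ≤ 2 * (ε / 32) := by
        refine mul_le_mul (by linarith) hcd (by positivity) (by norm_num)
      have k4 : (1 + η) * (2 * R1) = 2 * R1 + ε / 64 * (2 * R1) := by rw [hη]; ring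
      have k5 : ε * R0 ≤ ε * (3 / 2) := mul_le_mul_of_nonneg_left hR0' hε.le
      have k6 : ε * R1 ≤ ε * (3 / 4) := mul_le_mul_of_nonneg_left (by linarith) hε.le
      linarith
    have g11 : A * M * ((1 + η) * ((1 + 2 * εs) * R0) + (1 + η) * (2 * R1 + CD * τ)) ≤ A * M * (c + ε / 4) :=
      mul_le_mul_of_nonneg_left g10 (by positivity)
    have g12 : A * M * (ε / 32 + ε / 4) ≤ T * M * (ε / 32 + ε / 4) := by gcongr
    have g13 : 10 * (ε2 * (N / τ * T)) = T * (ε / 16 * M) := by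
      rw [← hb4]; ring
    have g14 : 0 ≤ T * M * ε := by positivity
    rw [g13]
    linarith
  rw [hX] at hkey
  have e1 : ((2 - c) * A - ε * T) * (L / (2 * Real.pi)) = (τ * L / (2 * N)) * (M * ((2 - c) * A - ε * T)) := by
    rw [hM]; field_simp
  have e2 : count = (τ * L / (2 * N)) * (2 * (N / (τ * L)) * count) := by field_simp
  rw [e1, e2]
  exact mul_le_mul_of_nonneg_left hkey (by positivity)

end

end Pool.Agent.Y745.SW
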