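import Pool.Agent.Y745.SW.DefsC

set_option autoImplicit false

/-! Basic facts about the window functions and the local sums. -/

namespace Pool.Agent.Y745.SW

open Filter Topology MeasureTheory Complex H370 TH803UC TH803CL

noncomputable section

section

variable {B : ℝ → ℝ} (hB : Continuous B)

include hB

lemma VF_cont : Continuous (VF B) := by
  unfold VF
  apply intervalIntegral.continuous_parametric_intervalIntegral_of_continuous'
  fun_prop

lemma vt_cont (a : ℝ) (z : ℂ) : Continuous (fun t : ℝ => vt B a t z) := by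
  unfold vt
  have := VF_cont hB
  fun_prop

lemma VF_conj (he : ∀ ξ, B (-ξ) = B ξ) (z : ℂ) : VF B ((starRingEnd ℂ) z) = (starRingEnd ℂ) (VF B z) := by
  unfold VF
  have h0 : (starRingEnd ℂ) (∫ ξ in (-1:ℝ)..1, (B ξ : ℂ) * cexp (I * ξ * z)) =
      ∫ ξ in (-1:ℝ)..1, (starRingEnd ℂ) ((B ξ : ℂ) * cexp (I * ξ * z)) := by
    rw [intervalIntegral.integral_of_le (by norm_num), intervalIntegral.integral_of_le (by norm_num), ← integral_conj]
  rw [h0]
  have h1 : ∫ ξ in (-1:ℝ)..1, (starRingEnd ℂ) ((B ξ : ℂ) * cexp (I * ξ * z)) =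
      ∫ ξ in (-1:ℝ)..1, (B (-ξ) : ℂ) * cexp (I * (-ξ : ℝ) * (starRingEnd ℂ) z) := by
    refine intervalIntegral.integral_congr fun ξ _ => ?_
    simp only [map_mul, Complex.conj_ofReal, ← Complex.exp_conj, Complex.conj_I, he]
    congr 2
    push_cast; ring
  rw [h1, intervalIntegral.integral_comp_neg (fun ξ : ℝ => (B ξ : ℂ) * cexp (I * ξ * (starRingEnd ℂ) z))]
  simp

lemma vt_conj (he : ∀ ξ, B (-ξ) = B ξ) (a t : ℝ) (z : ℂ) :
    vt B a t ((starRingEnd ℂ) z) = (starRingEnd ℂ) (vt B a t z) := by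
  unfold vt
  rw [map_mul, ← VF_conj hB he, ← Complex.exp_conj]
  simp only [map_mul, map_sub, map_div₀, map_neg, map_pow, Complex.conj_ofReal, Complex.conj_ofNat]

end

lemma vt_real {j : ℕ} {C N : ℝ} {B : ℝ → ℝ} (h : Wf j C N B) (a t : ℝ) (z : ℂ) (hz : z.im = 0) :
    0 ≤ (vt B a t z).re := by
  have hz' : z = (z.re : ℂ) := by
    apply Complex.ext <;> simp [hz]
  unfold vt
  rw [hz']
  have e1 : (a * ((z.re : ℂ) - t) : ℂ) = ((a * (z.re - t) : ℝ) : ℂ) := by push_cast; ring
  have e2 : (-((z.re : ℂ) - t) ^ 2 / 2 : ℂ) = ((-(z.re - t) ^ 2 / 2 : ℝ) : ℂ) := by push_cast; ring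
  rw [e1, e2, ← Complex.ofReal_exp, Complex.re_mul_ofReal]
  exact mul_nonneg (h.real _).2.1 (Real.exp_pos _).le

lemma St_cont {B : ℝ → ℝ} (hB : Continuous B) (a U1 U2 : ℝ) :
    Continuous (fun p : ℝ × ℝ => St B a U1 U2 p.1 p.2) := by
  unfold St
  refine continuous_finsetSum _ fun s _ => ?_
  unfold vt
  have := VF_cont hB
  fun_prop

lemma Mu_cont {B : ℝ → ℝ} (hB : Continuous B) (a L : ℝ) : Continuous (fun u : ℝ => Mu B a L u) := by
  unfold Mu
  refine continuous_const.mul ?_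
  apply intervalIntegral.continuous_parametric_intervalIntegral_of_continuous'
  fun_prop

/-- the main term at `0` -/
lemma Mu_lim {B : ℝ → ℝ} (hB : Continuous B) {τ : ℝ} (hτ : 0 < τ) :
    Tendsto (fun L : ℝ => Mu B (τ * L) L 0) atTop (𝓝 (B 0 / τ)) := by
  obtain ⟨K, hK⟩ : ∃ K : ℝ, ∀ x ∈ Set.Icc (-1:ℝ) 1, |B x| ≤ K := by
    obtain ⟨K, hK⟩ := isCompact_Icc.exists_bound_of_continuousOn (s := Set.Icc (-1:ℝ) 1) hB.continuousOn
    exact ⟨K, hK⟩
  have hK0 : 0 ≤ K := (abs_nonneg _).trans (hK 0 (by constructor <;> norm_num))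
  -- change of variables
  have h1 : ∀ L : ℝ, 0 < L → Mu B (τ * L) L 0 = 1 / (τ * Real.sqrt (2 * Real.pi)) *
      ∫ y : ℝ, (Set.Ioc (-(τ * L)) (τ * L)).indicator (fun y => B (y / (τ * L)) * Real.exp (-y ^ 2 / 2)) y := by
    intro L hL
    have ha : 0 < τ * L := mul_pos hτ hL
    have e1 : ∫ ξ in (-1:ℝ)..1, B ξ * Real.exp (-(0 + ξ * (τ * L)) ^ 2 / 2) =
        (τ * L)⁻¹ * ∫ y in (-(τ * L))..(τ * L), B (y / (τ * L)) * Real.exp (-y ^ 2 / 2) := by
      have := intervalIntegral.integral_comp_mul_right (a := -1) (b := 1)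
        (fun y => B (y / (τ * L)) * Real.exp (-y ^ 2 / 2)) ha.ne'
      rw [neg_one_mul, one_mul, smul_eq_mul] at this
      rw [← this]
      refine intervalIntegral.integral_congr fun ξ _ => ?_
      simp only [zero_add]
      rw [mul_div_assoc, div_self ha.ne', mul_one]
    unfold Mu
    rw [e1, integral_indicator measurableSet_Ioc, intervalIntegral.integral_of_le (by linarith)]
    field_simp
  have h2 : Tendsto (fun L : ℝ => ∫ y : ℝ, (Set.Ioc (-(τ * L)) (τ * L)).indicator
      (fun y => B (y / (τ * L)) * Real.exp (-y ^ 2 / 2)) y) atTop (𝓝 (∫ y : ℝ, B 0 * Real.exp (-y ^ 2 / 2))) := by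
    have hint : Integrable (fun y : ℝ => K * Real.exp (-y ^ 2 / 2)) := by
      have := (integrable_exp_neg_mul_sq (b := 1 / 2) (by norm_num)).const_mul K
      refine this.congr (Filter.Eventually.of_forall fun y => ?_)
      simp only
      congr 2; ring
    refine tendsto_integral_filter_of_dominated_convergence (fun y => K * Real.exp (-y ^ 2 / 2)) ?_ ?_ hint ?_
    · refine Filter.Eventually.of_forall fun L => ?_
      refine (Measurable.indicator ?_ measurableSet_Ioc).aestronglyMeasurable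
      exact (by fun_prop : Continuous fun y : ℝ => B (y / (τ * L)) * Real.exp (-y ^ 2 / 2)).measurable
    · filter_upwards [eventually_gt_atTop (0:ℝ)] with L hL
      have ha : 0 < τ * L := mul_pos hτ hL
      refine Filter.Eventually.of_forall fun y => ?_
      by_cases hy : y ∈ Set.Ioc (-(τ * L)) (τ * L)
      · rw [Set.indicator_of_mem hy, norm_mul, Real.norm_eq_abs, Real.norm_eq_abs, abs_of_pos (Real.exp_pos _)]
        refine mul_le_mul_of_nonneg_right (hK _ ?_) (Real.exp_pos _).le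
        constructor
        · rw [le_div_iff₀ ha]; linarith [hy.1]
        · rw [div_le_one ha]; exact hy.2
      · rw [Set.indicator_of_notMem hy, norm_zero]; positivity
    · refine Filter.Eventually.of_forall fun y => ?_
      have h3 : Tendsto (fun L : ℝ => B (y / (τ * L)) * Real.exp (-y ^ 2 / 2)) atTop
          (𝓝 (B 0 * Real.exp (-y ^ 2 / 2))) := by
        refine Tendsto.mul_const _ ?_
        have h4 : Tendsto (fun L : ℝ => y / (τ * L)) atTop (𝓝 0) := by
          have := (tendsto_inv_atTop_zero.comp (tendsto_id.const_mul_atTop hτ)).const_mul y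
          simp only [mul_zero] at this
          refine this.congr fun L => ?_
          simp [div_eq_mul_inv]
        exact (hB.tendsto 0).comp h4
      refine h3.congr' ?_
      have h5 : ∀ᶠ L : ℝ in atTop, |y| < τ * L := by
        have := (tendsto_id.const_mul_atTop hτ).eventually_gt_atTop |y|
        exact this
      filter_upwards [h5] with L hL
      rw [Set.indicator_of_mem]
      rw [abs_lt] at hL
      exact ⟨hL.1, hL.2.le⟩
  have h6 : ∫ y : ℝ, B 0 * Real.exp (-y ^ 2 / 2) = B 0 * Real.sqrt (2 * Real.pi) := by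
    rw [MeasureTheory.integral_const_mul]
    congr 1
    have := integral_gaussian (1 / 2)
    have e : Real.pi / (1 / 2) = 2 * Real.pi := by ring
    rw [e] at this
    rw [← this]
    congr 1
    ext y
    congr 1; ring
  rw [h6] at h2
  have h7 := h2.const_mul (1 / (τ * Real.sqrt (2 * Real.pi)))
  have h8 : 1 / (τ * Real.sqrt (2 * Real.pi)) * (B 0 * Real.sqrt (2 * Real.pi)) = B 0 / τ := by
    have : 0 < Real.sqrt (2 * Real.pi) := Real.sqrt_pos.2 (by positivity)
    field_simp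
  rw [h8] at h7
  refine h7.congr' ?_
  filter_upwards [eventually_gt_atTop (0:ℝ)] with L hL
  exact (h1 L hL).symm

/-- the main term is small away from `0` -/
lemma Mu_small {B : ℝ → ℝ} (hB : Continuous B) {K a L u : ℝ} (hK : ∀ ξ, |B ξ| ≤ K) (ha : 0 < a) (hL : 0 < L)
    (hu : 2 * a ≤ u) : |Mu B a L u| ≤ 2 * K * (L * Real.exp (-a ^ 2 / 2)) := by
  have hK0 : 0 ≤ K := (abs_nonneg _).trans (hK 0)
  unfold Mu
  rw [abs_mul, abs_of_nonneg (by positivity)]
  have h1 : |∫ ξ in (-1:ℝ)..1, B ξ * Real.exp (-(u + ξ * a) ^ 2 / 2)| ≤ K * Real.exp (-a ^ 2 / 2) * |1 - (-1:ℝ)| := by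
    rw [← Real.norm_eq_abs]
    refine intervalIntegral.norm_integral_le_of_norm_le_const fun ξ hξ => ?_
    rw [Set.uIoc_of_le (by norm_num)] at hξ
    rw [norm_mul, Real.norm_eq_abs, Real.norm_eq_abs, abs_of_pos (Real.exp_pos _)]
    refine mul_le_mul (hK ξ) ?_ (Real.exp_pos _).le hK0
    rw [Real.exp_le_exp]
    have : a ≤ u + ξ * a := by nlinarith [hξ.1]
    nlinarith
  have h2 : L / Real.sqrt (2 * Real.pi) ≤ L := by
    refine div_le_self hL.le ?_
    rw [Real.one_le_sqrt]
    linarith [Real.pi_gt_three]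
  have e1 : |1 - (-1:ℝ)| = 2 := by norm_num
  rw [e1] at h1
  calc L / Real.sqrt (2 * Real.pi) * |∫ ξ in (-1:ℝ)..1, B ξ * Real.exp (-(u + ξ * a) ^ 2 / 2)|
      ≤ L * (K * Real.exp (-a ^ 2 / 2) * 2) := by
        refine mul_le_mul h2 h1 (abs_nonneg _) hL.le
    _ = _ := by ring

/-- no negative frequencies -/
lemma DPm_zero {c : ℕ → ℂ} {B : ℝ → ℝ} {a u : ℝ} (ha : 0 < a) (hu : a ≤ u) (X : ℕ) (t : ℝ) :
    DPm c B a u X t = 0 := by
  have h1 : ∀ y : ℝ, Gm B a u y = 0 := by
    intro y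
    unfold Gm
    rw [intervalIntegral.integral_congr (g := fun _ => (0:ℝ))]
    · simp
    · intro ξ hξ
      rw [Set.uIcc_of_le (by norm_num)] at hξ
      simp only
      rw [if_pos]
      nlinarith [hξ.1]
  unfold DPm
  refine Finset.sum_eq_zero fun n _ => ?_
  rw [h1]
  simp

end

end Pool.Agent.Y745.SW
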