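import Pool.Agent.Y745.SW.Blk1

set_option autoImplicit false

/-! The local trace inequality for the zeros of zeta. -/

namespace Pool.Agent.Y745.SW

open Filter Topology MeasureTheory Complex H370 TH803UC TH803CL

noncomputable section

lemma zz_dist' (s s' : ℂ) : ‖zz s - zz s'‖ = ‖s - s'‖ := by
  have : zz s - zz s' = -I * (s - s') := by unfold zz; ring
  rw [this, norm_mul, norm_neg, Complex.norm_I, one_mul]

lemma zz_back' (s : ℂ) : (1 / 2 + I * zz s) = s := by
  have := zz_spec s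
  linear_combination -this

section

variable {F : ℂ → ℂ} (hF : GoodL F) {A B : ℝ} (hU : 1 ≤ A)

include hF hU

lemma Zpos' : ∀ z ∈ (Zf F A B).image zz, 1 ≤ mult F (1 / 2 + I * z) := by
  intro z hz
  rw [Finset.mem_image] at hz
  obtain ⟨s, hs, rfl⟩ := hz
  rw [zz_back']
  have := (mem_Zf hF hU).mp hs
  exact Loc.mult_pos' hF (by linarith [this.2.2.1]) this.2.2.2.2

lemma Zconj' : ∀ z ∈ (Zf F A B).image zz, (starRingEnd ℂ) z ∈ (Zf F A B).image zz := by
  intro z hz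
  rw [Finset.mem_image] at hz
  obtain ⟨s, hs, rfl⟩ := hz
  rw [← zz_refl]
  exact Finset.mem_image_of_mem _ ((mem_Zf hF hU).mpr (zset_refl hF hU ((mem_Zf hF hU).mp hs)))

lemma Zmc' : ∀ z ∈ (Zf F A B).image zz, mult F (1 / 2 + I * (starRingEnd ℂ) z) =
    mult F (1 / 2 + I * z) := by
  intro z hz
  rw [Finset.mem_image] at hz
  obtain ⟨s, hs, rfl⟩ := hz
  have := (mem_Zf hF hU).mp hs
  rw [← zz_refl, zz_back', zz_back', mult_refl hF this.1 this.2.1 (by linarith [this.2.2.1])]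

end

lemma split_real' (Z : Finset ℂ) (hZ : ∀ z ∈ Z, (starRingEnd ℂ) z ∈ Z) (m : ℂ → ℕ)
    (hmc : ∀ z ∈ Z, m ((starRingEnd ℂ) z) = m z) (G : ℂ → ℝ) (hG : ∀ z, G ((starRingEnd ℂ) z) = G z) :
    ∑ z ∈ Z, (m z : ℝ) * G z = ∑ z ∈ Z.filter (fun z => 0 ≤ z.im), cw m z * G z := by
  have h := split_upper Z hZ m hmc (fun z => (G z : ℂ))
  apply Complex.ofReal_injective
  push_cast
  rw [h]
  refine Finset.sum_congr rfl fun z _ => ?_
  rw [hG z]
  ring

/-- the pointwise inequality -/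
lemma pointwise (hDI : P_DI) (hTRK : P_TRK) (hζ : GoodL riemannZeta) {j : ℕ} {C N : ℝ} {B : ℝ → ℝ}
    (hW : Wf j C N B) {a L Λ d η1 N0 κ1 Y0 t U1 U2 : ℝ} (ha : 0 < a) (hU : 1 ≤ U1) (hΛ : 0 ≤ Λ) (hΛL : Λ ≤ L)
    (hL : 10 ≤ L) (hd : 0 < d) (hdL : d * L ≤ 1 / 10) (hη0 : 0 ≤ η1) (hη1 : η1 ≤ 1) (hN0 : 0 ≤ N0) (hY0 : 1 ≤ Y0)
    (hker : ∀ u : ℂ, ‖u‖ ≤ 6 * d → ‖kap (Λ * u) - 1‖ ≤ η1) :
    2 * (St B a U1 U2 0 t).re - 2 * ∫ x in (0:ℝ)..1, Rf x * ‖St B a U1 U2 (Λ * x) t‖ ^ 2 ≤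
      (((isoS U1 U2 d).filter (fun s => |s.im - t| ≤ N / a)).card : ℝ) +
      10 * ∑ s ∈ Zf riemannZeta U1 U2, (mult riemannZeta s : ℝ) * err B a N N0 κ1 Y0 L d η1 t (zz s) := by
  classical
  set Z := (Zf riemannZeta U1 U2).image zz with hZ
  set m : ℂ → ℕ := fun z => mult riemannZeta (1 / 2 + I * z) with hm
  set th' : ℝ → ℝ := th a N N0 κ1 Y0 L with hth
  have hLpos : 0 < L := by linarith
  have hth0 : ∀ y : ℝ, y * L < Y0 → th' y = (N - N0) / a := by
    intro y hy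
    simp only [hth, th]
    rw [if_pos hy]
  have hconj := Zconj' hζ (A := U1) (B := U2) hU
  have hmc := Zmc' hζ (A := U1) (B := U2) hU
  have hmain := hDI Z m (vt B a t) th' Λ L d η1 t hconj (Zpos' hζ hU) hmc
    (fun z => vt_conj hW.cont hW.even a t z) (fun z hz => vt_real hW a t z hz) hΛ hΛL hL hd hdL hη0 hη1 hker
    (fun y h0 hy => by
      rw [hth0 y ?_, hth0 0 (by linarith)]
      nlinarith)
  -- (1)
  have e1 : ∑ z ∈ Z.filter (fun z => 0 ≤ z.im), cw m z * (vt B a t z).re = (St B a U1 U2 0 t).re := by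
    have h := split_real' Z hconj m hmc (fun z => (vt B a t z).re) (fun z => by
      rw [vt_conj hW.cont hW.even, Complex.conj_re])
    rw [← h]
    unfold St
    rw [hZ, Finset.sum_image (fun s _ s' _ h => zz_inj h), Complex.re_sum]
    refine Finset.sum_congr rfl fun s _ => ?_
    simp only [hm]
    rw [zz_back']
    simp
  -- (2)
  have e2 : ∑ z ∈ Z, ∑ w ∈ Z, (m z : ℂ) * (m w : ℂ) * (vt B a t z * vt B a t w * kap (Λ * (z - w)) ^ 2) =
      ∑ s ∈ Zf riemannZeta U1 U2, ∑ s' ∈ Zf riemannZeta U1 U2, (mult riemannZeta s : ℂ) * (mult riemannZeta s' : ℂ) *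
      (vt B a t (zz s) * vt B a t (zz s') * kap (Λ * (zz s - zz s')) ^ 2) := by
    rw [hZ, Finset.sum_image (fun s _ s' _ h => zz_inj h)]
    refine Finset.sum_congr rfl fun s _ => ?_
    rw [Finset.sum_image (fun s _ s' _ h => zz_inj h)]
    refine Finset.sum_congr rfl fun s' _ => ?_
    simp only [hm]
    rw [zz_back', zz_back']
  -- (3)
  have e3 : ∑ z ∈ Z.filter (fun z => 0 ≤ z.im), cw m z *
      ((if |z.re - t| ≤ th' |z.im| + 2 * d then 2 * ‖1 - vt B a t z‖ + η1 else 0) +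
        (if |z.re - t| ≤ th' |z.im| - 2 * d then 0 else 2 * ‖vt B a t z‖ * Real.exp (|z.im| * L))) =
      ∑ s ∈ Zf riemannZeta U1 U2, (mult riemannZeta s : ℝ) * err B a N N0 κ1 Y0 L d η1 t (zz s) := by
    have h := split_real' Z hconj m hmc (fun z => err B a N N0 κ1 Y0 L d η1 t z) (fun z => by
      have h1 : ‖1 - vt B a t ((starRingEnd ℂ) z)‖ = ‖1 - vt B a t z‖ := by
        rw [vt_conj hW.cont hW.even, ← map_one (starRingEnd ℂ), ← map_sub, RCLike.norm_conj, map_one]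
      have h2 : ‖vt B a t ((starRingEnd ℂ) z)‖ = ‖vt B a t z‖ := by
        rw [vt_conj hW.cont hW.even, RCLike.norm_conj]
      simp only [err, Complex.conj_re, Complex.conj_im, abs_neg]
      rw [h1, h2])
    have h' : ∑ z ∈ Z, (m z : ℝ) * err B a N N0 κ1 Y0 L d η1 t z =
        ∑ s ∈ Zf riemannZeta U1 U2, (mult riemannZeta s : ℝ) * err B a N N0 κ1 Y0 L d η1 t (zz s) := by
      rw [hZ, Finset.sum_image (fun s _ s' _ h => zz_inj h)]
      refine Finset.sum_congr rfl fun s _ => ?_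
      simp only [hm]
      rw [zz_back']
    rw [← h', h]
    rfl
  -- (4)
  have e4 : (((isoP Z m d).filter (fun z => |z.re - t| ≤ th' 0)).card : ℝ) ≤
      (((isoS U1 U2 d).filter (fun s => |s.im - t| ≤ N / a)).card : ℝ) := by
    have hsub : (isoP Z m d).filter (fun z => |z.re - t| ≤ th' 0) ⊆
        ((isoS U1 U2 d).filter (fun s => |s.im - t| ≤ N / a)).image zz := by
      intro z hz
      rw [Finset.mem_filter] at hz
      obtain ⟨hz1, hz2⟩ := hz
      unfold isoP at hz1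
      rw [Finset.mem_filter, hZ, Finset.mem_image] at hz1
      obtain ⟨⟨s, hs, rfl⟩, h1, h2, h3⟩ := hz1
      have h2' : mult riemannZeta (1 / 2 + I * zz s) = 1 := h2
      rw [zz_back'] at h2'
      rw [zz_im] at h1
      refine Finset.mem_image_of_mem _ ?_
      rw [Finset.mem_filter]
      constructor
      · unfold isoS
        rw [Finset.mem_filter]
        refine ⟨hs, by linarith, h2', fun s' hs' hne => ?_⟩
        have := h3 (zz s') (Finset.mem_image_of_mem _ hs') (fun h => hne (zz_inj h))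
        rwa [zz_dist'] at this
      · rw [zz_re, hth0 0 (by linarith)] at hz2
        refine hz2.trans ?_
        gcongr
        linarith
    exact_mod_cast (Finset.card_le_card hsub).trans Finset.card_image_le
  rw [e1, e2, e3, hTRK B a t Λ U1 U2 hW.cont hW.even hU] at hmain
  linarith

end

end Pool.Agent.Y745.SW
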