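import Pool.Agent.Y745.SW.Blk2

set_option autoImplicit false

/-! Continuity of the prime sums, integrability, elementary inequalities. -/

namespace Pool.Agent.Y745.SW

open Filter Topology MeasureTheory Complex H370 TH803UC TH803CL

noncomputable section

/-- `Gp` without the condition -/
def Gq (B : ℝ → ℝ) (a u y : ℝ) : ℝ :=
  1 / Real.sqrt (2 * Real.pi) * ∫ ξ in (-1:ℝ)..1, B ξ * Real.exp (-(u + ξ * a - y) ^ 2 / 2)

lemma Gp_eq (B : ℝ → ℝ) {a u : ℝ} (ha : 0 < a) (hu : a ≤ u) (y : ℝ) : Gp B a u y = Gq B a u y := by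
  unfold Gp Gq
  congr 1
  refine intervalIntegral.integral_congr fun ξ hξ => ?_
  rw [Set.uIcc_of_le (by norm_num)] at hξ
  rw [if_pos]
  nlinarith [hξ.1]

lemma Gq_cont {B : ℝ → ℝ} (hB : Continuous B) (a y : ℝ) : Continuous (fun u : ℝ => Gq B a u y) := by
  unfold Gq
  refine continuous_const.mul ?_
  apply intervalIntegral.continuous_parametric_intervalIntegral_of_continuous'
  fun_prop

/-- the prime sum without the condition -/
def DPq (c : ℕ → ℂ) (B : ℝ → ℝ) (a u : ℝ) (X : ℕ) (t : ℝ) : ℂ :=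
  ∑ n ∈ Finset.Icc 1 X, c n * ((Real.sqrt n)⁻¹ * Gq B a u (Real.log n) : ℝ) * (n : ℂ) ^ (-(t : ℂ) * I)

lemma DPp_eq (c : ℕ → ℂ) (B : ℝ → ℝ) {a u : ℝ} (ha : 0 < a) (hu : a ≤ u) (X : ℕ) (t : ℝ) :
    DPp c B a u X t = DPq c B a u X t := by
  unfold DPp DPq dp
  refine Finset.sum_congr rfl fun n _ => ?_
  rw [Gp_eq B ha hu]

lemma npow_cont (n : ℕ) (hn : 1 ≤ n) : Continuous (fun t : ℝ => (n : ℂ) ^ (-(t : ℂ) * I)) := by
  refine Continuous.const_cpow (by fun_prop) (Or.inl ?_)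
  exact_mod_cast (by omega : n ≠ 0)

lemma DPq_cont (c : ℕ → ℂ) {B : ℝ → ℝ} (hB : Continuous B) (a : ℝ) (X : ℕ) :
    Continuous (fun p : ℝ × ℝ => DPq c B a p.1 X p.2) := by
  unfold DPq
  refine continuous_finsetSum _ fun n hn => ?_
  have h1 := (Gq_cont hB a (Real.log n)).comp (continuous_fst (X := ℝ) (Y := ℝ))
  have h2 := (npow_cont n (Finset.mem_Icc.1 hn).1).comp (continuous_snd (X := ℝ) (Y := ℝ))
  simp only [Function.comp_def] at h1 h2
  have h3 : Continuous (fun p : ℝ × ℝ => (((Real.sqrt n)⁻¹ * Gq B a p.1 (Real.log n) : ℝ) : ℂ)) :=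
    Complex.continuous_ofReal.comp (continuous_const.mul h1)
  exact (continuous_const.mul h3).mul h2

section

variable {c : ℕ → ℂ} {B : ℝ → ℝ} (hB : Continuous B) {ε τ ηs : ℝ} (hε : 0 < ε) (hε2 : ε < 1 / 2) (hτ : 0 < τ)
  (hτε : τ ≤ ε / 4) (hη : 4 * τ ≤ ηs) (hη1 : ηs ≤ 1)

include hε hε2 hτ hτε hη hη1

lemma u_ge {L y : ℝ} (hL : 0 < L) (hy : ηs ≤ y) : 2 * (τ * L) ≤ (1 - ε) * L * y := by
  have h1 : 4 * τ ≤ y := hη.trans hy
  have h2 : (1:ℝ) / 2 ≤ 1 - ε := by linarith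
  have h3 : (1 - ε) * y ≥ 2 * τ := by nlinarith
  nlinarith

lemma Dq_eq (R : ℝ → ℝ) {T : ℝ} (hT : 0 < Real.log T) (t : ℝ) : Dq R c B ε τ ηs T t =
    2 * ∫ y in ηs..1, R y * ‖DPq c B (τ * Real.log T) ((1 - ε) * Real.log T * y) (XT ε T) t‖ ^ 2 := by
  unfold Dq
  congr 1
  refine intervalIntegral.integral_congr fun y hy => ?_
  rw [Set.uIcc_of_le hη1] at hy
  rw [DPp_eq c B (mul_pos hτ hT)]
  have := u_ge hε hε2 hτ hτε hη hη1 hT hy.1
  have := mul_pos hτ hT
  linarith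

include hB

lemma Dq_cont {R : ℝ → ℝ} (hR : Continuous R) {T : ℝ} (hT : 0 < Real.log T) :
    Continuous (fun t : ℝ => Dq R c B ε τ ηs T t) := by
  simp_rw [Dq_eq hε hε2 hτ hτε hη hη1 R hT]
  refine continuous_const.mul ?_
  apply intervalIntegral.continuous_parametric_intervalIntegral_of_continuous'
  have h1 := DPq_cont c hB (τ * Real.log T) (XT ε T)
  have h2 : Continuous (fun p : ℝ × ℝ => ((1 - ε) * Real.log T * p.2, p.1)) := by fun_prop
  have h3 := h1.comp h2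
  simp only [Function.comp_def] at h3
  exact (hR.comp continuous_snd).mul (h3.norm.pow 2)

omit hB in
lemma Dq_nonneg {R : ℝ → ℝ} (hR0 : ∀ x ∈ Set.Icc (0:ℝ) 1, 0 ≤ R x) {T : ℝ} (t : ℝ) :
    0 ≤ Dq R c B ε τ ηs T t := by
  unfold Dq
  refine mul_nonneg (by norm_num) (intervalIntegral.integral_nonneg hη1 fun y hy => ?_)
  exact mul_nonneg (hR0 y ⟨by linarith [hy.1], hy.2⟩) (by positivity)

/-- the bound for the expected value of the weight -/
lemma Zq_le (hDF : P_DF) {R : ℝ → ℝ} (hR : Continuous R) (hR0 : ∀ x ∈ Set.Icc (0:ℝ) 1, 0 ≤ R x)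
    (hlip : ∃ K : ℝ, ∀ x y : ℝ, |R x - R y| ≤ K * |x - y|) (he : ∀ ξ, B (-ξ) = B ξ)
    (hc : ∀ n, ‖c n‖ ≤ ArithmeticFunction.vonMangoldt n) {CD : ℝ}
    (hCD : ∀ B : ℝ → ℝ, Continuous B → (∀ ξ, B (-ξ) = B ξ) →
      ∀ ε τ η1 η : ℝ, 0 < ε → ε < 1 / 2 → 0 < τ → τ ≤ ε / 4 → 4 * τ ≤ η1 → η1 ≤ 1 → 0 < η →
      ∀ᶠ T : ℝ in atTop,
      2 * ∫ y in η1..1, R y * ∑ n ∈ Finset.Icc 1 (XT ε T), (ArithmeticFunction.vonMangoldt n *
        ((Real.sqrt n)⁻¹ * Gp B (τ * Real.log T) ((1 - ε) * Real.log T * y) (Real.log n))) ^ 2 ≤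
      2 * (1 - ε) / τ * (∫ x in (0:ℝ)..1, x * R x) * (∫ ξ in (-1:ℝ)..1, B ξ ^ 2) +
        CD * (∫ ξ in (-1:ℝ)..1, B ξ ^ 2) + η) :
    ∀ᶠ T : ℝ in atTop, Zq R c B ε τ ηs T ≤
      2 * (1 - ε) / τ * (∫ x in (0:ℝ)..1, x * R x) * (∫ ξ in (-1:ℝ)..1, B ξ ^ 2) +
        CD * (∫ ξ in (-1:ℝ)..1, B ξ ^ 2) + 1 := by
  filter_upwards [hCD B hB he ε τ ηs 1 hε hε2 hτ hτε hη hη1 one_pos,
    Real.tendsto_log_atTop.eventually_gt_atTop 0] with T hT hL
  refine le_trans ?_ hT
  unfold Zq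
  refine mul_le_mul_of_nonneg_left ?_ (by norm_num)
  have ha : 0 < τ * Real.log T := mul_pos hτ hL
  have hcg : ∀ n : ℕ, ContinuousOn (fun y : ℝ => Gp B (τ * Real.log T) ((1 - ε) * Real.log T * y) (Real.log n))
      (Set.Icc ηs 1) := by
    intro n
    have h1 : Continuous (fun y : ℝ => Gq B (τ * Real.log T) ((1 - ε) * Real.log T * y) (Real.log n)) :=
      (Gq_cont hB _ _).comp (by fun_prop)
    refine h1.continuousOn.congr fun y hy => ?_
    rw [Gp_eq B ha]
    have := u_ge hε hε2 hτ hτε hη hη1 hL hy.1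
    linarith
  refine intervalIntegral.integral_mono_on hη1 ?_ ?_ ?_
  · refine ContinuousOn.intervalIntegrable ?_
    rw [Set.uIcc_of_le hη1]
    refine hR.continuousOn.mul (continuousOn_finsetSum _ fun n _ => ?_)
    unfold dp
    refine ContinuousOn.pow (ContinuousOn.norm ?_) 2
    refine continuousOn_const.mul ?_
    exact Complex.continuous_ofReal.comp_continuousOn (continuousOn_const.mul (hcg n))
  · refine ContinuousOn.intervalIntegrable ?_
    rw [Set.uIcc_of_le hη1]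
    refine hR.continuousOn.mul (continuousOn_finsetSum _ fun n _ => ?_)
    exact (continuousOn_const.mul (continuousOn_const.mul (hcg n))).pow 2
  · intro y hy
    refine mul_le_mul_of_nonneg_left ?_ (hR0 y ⟨by linarith [hy.1], hy.2⟩)
    refine Finset.sum_le_sum fun n _ => ?_
    unfold dp
    rw [norm_mul, Complex.norm_real, Real.norm_eq_abs]
    have h1 := hc n
    have h2 : 0 ≤ ArithmeticFunction.vonMangoldt n := ArithmeticFunction.vonMangoldt_nonneg
    rw [mul_pow, mul_pow, sq_abs]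
    exact mul_le_mul_of_nonneg_right (pow_le_pow_left₀ (norm_nonneg _) h1 2) (sq_nonneg _)

end

/-! ### integrability of the costs -/

lemma err_nonneg (B : ℝ → ℝ) (a N N0 κ1 Y0 L d η1 : ℝ) (h : 0 ≤ η1) (t : ℝ) (z : ℂ) :
    0 ≤ err B a N N0 κ1 Y0 L d η1 t z := by
  unfold err
  have h1 : 0 ≤ 2 * ‖1 - vt B a t z‖ + η1 := by positivity
  have h2 : 0 ≤ 2 * ‖vt B a t z‖ * Real.exp (|z.im| * L) := by positivity
  split_ifs <;> linarith

lemma err_int {B : ℝ → ℝ} (hB : Continuous B) (a N N0 κ1 Y0 L d η1 : ℝ) (h : 0 ≤ η1) (z : ℂ) (t1 t2 : ℝ) :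
    IntegrableOn (fun t : ℝ => err B a N N0 κ1 Y0 L d η1 t z) (Set.Icc t1 t2) := by
  have hv := vt_cont hB a z
  have hc1 : Continuous (fun t : ℝ => 2 * ‖1 - vt B a t z‖ + η1) := by fun_prop
  have hc2 : Continuous (fun t : ℝ => 2 * ‖vt B a t z‖ * Real.exp (|z.im| * L)) := by fun_prop
  have hm : ∀ c : ℝ, MeasurableSet {t : ℝ | |z.re - t| ≤ c} := fun c =>
    (isClosed_le (by fun_prop) continuous_const).measurableSet
  have hdom : IntegrableOn (fun t : ℝ => (2 * ‖1 - vt B a t z‖ + η1) + 2 * ‖vt B a t z‖ * Real.exp (|z.im| * L))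
      (Set.Icc t1 t2) := (hc1.add hc2).continuousOn.integrableOn_compact isCompact_Icc
  refine Integrable.mono' hdom ?_ ?_
  · refine Measurable.aestronglyMeasurable ?_
    unfold err
    exact (Measurable.ite (hm _) hc1.measurable measurable_const).add
      (Measurable.ite (hm _) measurable_const hc2.measurable)
  · refine Filter.Eventually.of_forall fun t => ?_
    rw [Real.norm_eq_abs, abs_of_nonneg (err_nonneg B a N N0 κ1 Y0 L d η1 h t z)]
    unfold err
    have h1 : 0 ≤ 2 * ‖1 - vt B a t z‖ + η1 := by positivity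
    have h2 : 0 ≤ 2 * ‖vt B a t z‖ * Real.exp (|z.im| * L) := by positivity
    split_ifs <;> linarith

/-- the number of points near `t`, integrated -/
lemma count_int (I : Finset ℂ) (S : Set ℝ) (hS : MeasurableSet S) (hSf : volume S ≠ ⊤) {r : ℝ} (hr : 0 ≤ r) :
    IntegrableOn (fun t : ℝ => ((I.filter (fun s => |s.im - t| ≤ r)).card : ℝ)) S ∧
    ∫ t in S, ((I.filter (fun s => |s.im - t| ≤ r)).card : ℝ) ≤
      2 * r * ((@Finset.filter ℂ (fun s => ∃ t ∈ S, |s.im - t| ≤ r) (Classical.decPred _) I).card : ℝ) := by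
  classical
  have hm : ∀ s : ℂ, MeasurableSet {t : ℝ | |s.im - t| ≤ r} := fun s =>
    (isClosed_le (by fun_prop) continuous_const).measurableSet
  have e1 : ∀ t : ℝ, ((I.filter (fun s => |s.im - t| ≤ r)).card : ℝ) =
      ∑ s ∈ I, {t : ℝ | |s.im - t| ≤ r}.indicator (fun _ => (1:ℝ)) t := by
    intro t
    rw [Finset.card_filter]
    push_cast
    refine Finset.sum_congr rfl fun s _ => ?_
    by_cases h : |s.im - t| ≤ r
    · rw [if_pos h, Set.indicator_of_mem (by exact h)]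
    · rw [if_neg h, Set.indicator_of_notMem (by exact h)]
  simp_rw [e1]
  have hi : ∀ s ∈ I, IntegrableOn (fun t => {t : ℝ | |s.im - t| ≤ r}.indicator (fun _ => (1:ℝ)) t) S := by
    intro s _
    refine Integrable.indicator ?_ (hm s)
    exact integrableOn_const hSf
  refine ⟨integrable_finsetSum _ hi, ?_⟩
  rw [integral_finsetSum _ hi, Finset.card_filter]
  push_cast
  rw [Finset.mul_sum]
  refine Finset.sum_le_sum fun s _ => ?_
  rw [integral_indicator (hm s), setIntegral_const, smul_eq_mul, mul_one]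
  by_cases h : ∃ t ∈ S, |s.im - t| ≤ r
  · rw [if_pos h, mul_one]
    have h1 : {t : ℝ | |s.im - t| ≤ r} = Set.Icc (s.im - r) (s.im + r) := by
      ext t
      simp only [Set.mem_setOf_eq, Set.mem_Icc, abs_le]
      constructor <;> intro h <;> constructor <;> linarith [h.1, h.2]
    have h2 : (volume.restrict S) {t : ℝ | |s.im - t| ≤ r} ≤ volume {t : ℝ | |s.im - t| ≤ r} :=
      Measure.restrict_le_self _
    have h3 : volume {t : ℝ | |s.im - t| ≤ r} = ENNReal.ofReal (2 * r) := by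
      rw [h1, Real.volume_Icc]
      congr 1; ring
    rw [h3] at h2
    calc ((volume.restrict S).real {t : ℝ | |s.im - t| ≤ r}) ≤ (ENNReal.ofReal (2 * r)).toReal :=
          ENNReal.toReal_mono ENNReal.ofReal_ne_top h2
      _ = 2 * r := ENNReal.toReal_ofReal (by linarith)
  · rw [if_neg h, mul_zero]
    have h1 : (volume.restrict S) {t : ℝ | |s.im - t| ≤ r} = 0 := by
      rw [Measure.restrict_apply (hm s)]
      have : {t : ℝ | |s.im - t| ≤ r} ∩ S = ∅ := by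
        ext t
        simp only [Set.mem_inter_iff, Set.mem_setOf_eq, Set.mem_empty_iff_false, iff_false, not_and]
        exact fun h1 h2 => h ⟨t, h2, h1⟩
      rw [this, measure_empty]
    rw [Measure.real, h1]
    simp

end

end Pool.Agent.Y745.SW
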