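import Pool.Agent.Y745.SW.Blk3

set_option autoImplicit false

/-! The block inequality at one height. -/

namespace Pool.Agent.Y745.SW

open Filter Topology MeasureTheory Complex H370 TH803UC TH803CL

noncomputable section

lemma sq_split {x y η : ℝ} (hη : 0 < η) : (x + y) ^ 2 ≤ (1 + η) * x ^ 2 + (1 + 1 / η) * y ^ 2 := by
  have h : 0 ≤ (η * x - y) ^ 2 / η := by positivity
  have e : (η * x - y) ^ 2 / η = η * x ^ 2 - 2 * x * y + y ^ 2 / η := by
    field_simp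
    ring
  rw [e] at h
  have : (1 / η) * y ^ 2 = y ^ 2 / η := by ring
  nlinarith

/-- the deviation -/
def Gd (B : ℝ → ℝ) (a L U1 U2 u t : ℝ) : ℝ := ‖St B a U1 U2 u t - cexp (I * u * t) * (Mu B a L u : ℝ)‖ ^ 2

lemma Gd_cont {B : ℝ → ℝ} (hB : Continuous B) (a L U1 U2 : ℝ) :
    Continuous (fun p : ℝ × ℝ => Gd B a L U1 U2 p.1 p.2) := by
  unfold Gd
  have h1 := St_cont hB a U1 U2
  have h2 := (Mu_cont hB a L).comp (continuous_fst (X := ℝ) (Y := ℝ))
  simp only [Function.comp_def] at h2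
  have h3 : Continuous (fun p : ℝ × ℝ => ((Mu B a L p.1 : ℝ) : ℂ)) := Complex.continuous_ofReal.comp h2
  have h4 : Continuous (fun p : ℝ × ℝ => cexp (I * p.1 * p.2)) := by fun_prop
  exact ((h1.sub (h4.mul h3)).norm).pow 2

section

variable {B : ℝ → ℝ} {c : ℕ → ℂ} {ε τ η K T U1 U2 : ℝ}

/-- the pair term -/
lemma pair_term (hB : Continuous B) (hMN : P_MN) (he : ∀ ξ, B (-ξ) = B ξ) (hε : 0 < ε) (hε2 : ε < 1 / 2) (hτ : 0 < τ)
    (hτε : τ ≤ ε / 4) (hη : 0 < η) (hL : 0 < Real.log T) {t : ℝ}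
    (hEF : ∀ u : ℝ, 0 ≤ u → u ≤ (1 - ε) * Real.log T →
      ‖St B (τ * Real.log T) U1 U2 u t - cexp (I * u * t) * ((Mu B (τ * Real.log T) (Real.log T) u : ℝ) -
        DPp c B (τ * Real.log T) u (XT ε T) t - DPm c B (τ * Real.log T) u (XT ε T) t)‖ ≤ 1 / 2)
    (hMs : ∀ u : ℝ, 2 * (τ * Real.log T) ≤ u → |Mu B (τ * Real.log T) (Real.log T) u| ≤ 1 / 2) :
    2 * ∫ x in (0:ℝ)..1, Rf x * ‖St B (τ * Real.log T) U1 U2 ((1 - ε) * Real.log T * x) t‖ ^ 2 ≤
      (1 + η) * (Rf 0 / ((1 - ε) * τ) * ∫ ξ in (-1:ℝ)..1, B ξ ^ 2) +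
      (1 + 1 / η) * (2 * Rf 0 * ∫ x in (0:ℝ)..(4 * τ),
        Gd B (τ * Real.log T) (Real.log T) U1 U2 ((1 - ε) * Real.log T * x) t) +
      (1 + η) * Dq Rf c B ε τ (4 * τ) T t + (1 + 1 / η) * (2 * Rf 0) := by
  set L := Real.log T with hLd
  set a := τ * L with ha
  set Λ := (1 - ε) * L with hΛ
  have ha0 : 0 < a := mul_pos hτ hL
  have hΛ0 : 0 < Λ := mul_pos (by linarith) hL
  have h4τ : 4 * τ ≤ 1 := by linarith
  have h4τ0 : 0 ≤ 4 * τ := by linarith
  have hRc : Continuous Rf := Rf_cont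
  have hR0 : ∀ x, 0 ≤ Rf x := Rf_nonneg
  have hRle : ∀ x ∈ Set.Icc (0:ℝ) 1, 0 ≤ Rf x ∧ Rf x ≤ Rf 0 := fun x hx =>
    ⟨hR0 x, Rf_antitone (by simp) (by exact hx.1) hx.1⟩
  have hSc : Continuous (fun x : ℝ => Rf x * ‖St B a U1 U2 (Λ * x) t‖ ^ 2) := by
    have h1 := (St_cont hB a U1 U2).comp (f := fun x : ℝ => (Λ * x, t)) (by fun_prop)
    simp only [Function.comp_def] at h1
    exact hRc.mul (h1.norm.pow 2)
  have hGc : Continuous (fun x : ℝ => Gd B a L U1 U2 (Λ * x) t) := by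
    have h1 := (Gd_cont hB a L U1 U2).comp (f := fun x : ℝ => (Λ * x, t)) (by fun_prop)
    simpa only [Function.comp_def] using h1
  have hMc : Continuous (fun x : ℝ => Mu B a L (Λ * x)) := (Mu_cont hB a L).comp (by fun_prop)
  have hDc : Continuous (fun x : ℝ => DPq c B a (Λ * x) (XT ε T) t) := by
    have h1 := (DPq_cont c hB a (XT ε T)).comp (f := fun x : ℝ => (Λ * x, t)) (by fun_prop)
    simpa only [Function.comp_def] using h1
  have hnorm : ∀ u : ℝ, ‖cexp (I * u * t)‖ = 1 := by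
    intro u
    have : I * (u : ℂ) * t = ((u * t : ℝ) : ℂ) * I := by push_cast; ring
    rw [this, Complex.norm_exp_ofReal_mul_I]
  rw [← intervalIntegral.integral_add_adjacent_intervals (b := 4 * τ) (hSc.intervalIntegrable _ _)
    (hSc.intervalIntegrable _ _), mul_add]
  -- small frequencies
  have hlow : 2 * ∫ x in (0:ℝ)..(4 * τ), Rf x * ‖St B a U1 U2 (Λ * x) t‖ ^ 2 ≤
      (1 + η) * (Rf 0 / ((1 - ε) * τ) * ∫ ξ in (-1:ℝ)..1, B ξ ^ 2) +
      (1 + 1 / η) * (2 * Rf 0 * ∫ x in (0:ℝ)..(4 * τ), Gd B a L U1 U2 (Λ * x) t) := by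
    have h1 : ∫ x in (0:ℝ)..(4 * τ), Rf x * ‖St B a U1 U2 (Λ * x) t‖ ^ 2 ≤
        ∫ x in (0:ℝ)..(4 * τ), ((1 + η) * (Rf x * Mu B a L (Λ * x) ^ 2) + (1 + 1 / η) * (Rf 0 *
          Gd B a L U1 U2 (Λ * x) t)) := by
      refine intervalIntegral.integral_mono_on h4τ0 (hSc.intervalIntegrable _ _) ?_ fun x hx => ?_
      · exact ((continuous_const.mul (hRc.mul (hMc.pow 2))).add
          (continuous_const.mul (continuous_const.mul hGc))).intervalIntegrable _ _
      · have hx1 : x ∈ Set.Icc (0:ℝ) 1 := ⟨hx.1, hx.2.trans h4τ⟩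
        obtain ⟨r0, r1⟩ := hRle x hx1
        have h2 : ‖St B a U1 U2 (Λ * x) t‖ ≤ |Mu B a L (Λ * x)| +
            ‖St B a U1 U2 (Λ * x) t - cexp (I * (Λ * x : ℝ) * t) * (Mu B a L (Λ * x) : ℝ)‖ := by
          have e : ‖cexp (I * (Λ * x : ℝ) * t) * (Mu B a L (Λ * x) : ℝ)‖ = |Mu B a L (Λ * x)| := by
            rw [norm_mul, hnorm, one_mul, Complex.norm_real, Real.norm_eq_abs]
          rw [← e]
          refine le_trans ?_ (norm_add_le _ _)
          rw [add_sub_cancel]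
        have h3 : ‖St B a U1 U2 (Λ * x) t‖ ^ 2 ≤ (1 + η) * Mu B a L (Λ * x) ^ 2 + (1 + 1 / η) *
            Gd B a L U1 U2 (Λ * x) t := by
          refine (pow_le_pow_left₀ (norm_nonneg _) h2 2).trans ?_
          have := sq_split (x := |Mu B a L (Λ * x)|)
            (y := ‖St B a U1 U2 (Λ * x) t - cexp (I * (Λ * x : ℝ) * t) * (Mu B a L (Λ * x) : ℝ)‖) hη
          rw [sq_abs] at this
          exact this
        have hG0 : 0 ≤ Gd B a L U1 U2 (Λ * x) t := by unfold Gd; positivity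
        have hη1 : 0 ≤ 1 + 1 / η := by positivity
        calc Rf x * ‖St B a U1 U2 (Λ * x) t‖ ^ 2 ≤ Rf x * ((1 + η) * Mu B a L (Λ * x) ^ 2 + (1 + 1 / η) *
            Gd B a L U1 U2 (Λ * x) t) := mul_le_mul_of_nonneg_left h3 r0
          _ = (1 + η) * (Rf x * Mu B a L (Λ * x) ^ 2) + (1 + 1 / η) * (Rf x * Gd B a L U1 U2 (Λ * x) t) := by ring
          _ ≤ _ := by gcongr
    have h2 : ∫ x in (0:ℝ)..(4 * τ), ((1 + η) * (Rf x * Mu B a L (Λ * x) ^ 2) + (1 + 1 / η) * (Rf 0 *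
          Gd B a L U1 U2 (Λ * x) t)) = (1 + η) * (∫ x in (0:ℝ)..(4 * τ), Rf x * Mu B a L (Λ * x) ^ 2) +
          (1 + 1 / η) * (Rf 0 * ∫ x in (0:ℝ)..(4 * τ), Gd B a L U1 U2 (Λ * x) t) := by
      rw [intervalIntegral.integral_add, intervalIntegral.integral_const_mul, intervalIntegral.integral_const_mul,
        intervalIntegral.integral_const_mul]
      · exact (continuous_const.mul (hRc.mul (hMc.pow 2))).intervalIntegrable _ _
      · exact (continuous_const.mul (continuous_const.mul hGc)).intervalIntegrable _ _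
    have h3 : 2 * ∫ x in (0:ℝ)..(4 * τ), Rf x * Mu B a L (Λ * x) ^ 2 ≤
        Rf 0 / ((1 - ε) * τ) * ∫ ξ in (-1:ℝ)..1, B ξ ^ 2 := by
      have h4 := hMN B Rf (Rf 0) hB he hRc hRle a L Λ ha0 hL hΛ0
      have e : Rf 0 * (L ^ 2 / (Λ * a)) = Rf 0 / ((1 - ε) * τ) := by
        rw [hΛ, ha]
        have : (1 - ε) ≠ 0 := by linarith
        field_simp
      rw [e] at h4
      refine le_trans (mul_le_mul_of_nonneg_left ?_ (by norm_num)) h4
      refine intervalIntegral.integral_mono_interval le_rfl h4τ0 h4τ ?_ ?_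
      · refine Filter.Eventually.of_forall fun x => ?_
        exact mul_nonneg (hR0 x) (sq_nonneg _)
      · exact (hRc.mul (hMc.pow 2)).intervalIntegrable _ _
    rw [h2] at h1
    have h5 := mul_le_mul_of_nonneg_left h3 (by positivity : (0:ℝ) ≤ 1 + η)
    linarith
  -- large frequencies
  have hhigh : 2 * ∫ x in (4 * τ)..1, Rf x * ‖St B a U1 U2 (Λ * x) t‖ ^ 2 ≤
      (1 + η) * Dq Rf c B ε τ (4 * τ) T t + (1 + 1 / η) * (2 * Rf 0) := by
    rw [Dq_eq hε hε2 hτ hτε le_rfl h4τ Rf hL]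
    have h1 : ∫ x in (4 * τ)..1, Rf x * ‖St B a U1 U2 (Λ * x) t‖ ^ 2 ≤
        ∫ x in (4 * τ)..1, ((1 + η) * (Rf x * ‖DPq c B a (Λ * x) (XT ε T) t‖ ^ 2) + (1 + 1 / η) * Rf 0) := by
      refine intervalIntegral.integral_mono_on h4τ (hSc.intervalIntegrable _ _) ?_ fun x hx => ?_
      · exact ((continuous_const.mul (hRc.mul (hDc.norm.pow 2))).add continuous_const).intervalIntegrable _ _
      · have hx1 : x ∈ Set.Icc (0:ℝ) 1 := ⟨h4τ0.trans hx.1, hx.2⟩
        obtain ⟨r0, r1⟩ := hRle x hx1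
        have hu := u_ge hε hε2 hτ hτε le_rfl h4τ hL hx.1
        have hu0 : 0 ≤ Λ * x := mul_nonneg hΛ0.le hx1.1
        have hu1 : Λ * x ≤ (1 - ε) * L := by
          calc Λ * x ≤ Λ * 1 := mul_le_mul_of_nonneg_left hx1.2 hΛ0.le
            _ = _ := by rw [mul_one]
        have h2 := hEF (Λ * x) hu0 hu1
        have h3 := hMs (Λ * x) hu
        rw [DPm_zero ha0 (by linarith), DPp_eq c B ha0 (by linarith), sub_zero] at h2
        have h4 : ‖St B a U1 U2 (Λ * x) t‖ ≤ ‖DPq c B a (Λ * x) (XT ε T) t‖ + 1 := by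
          have h5 : ‖cexp (I * (Λ * x : ℝ) * t) * ((Mu B a L (Λ * x) : ℝ) - DPq c B a (Λ * x) (XT ε T) t)‖ ≤
              1 / 2 + ‖DPq c B a (Λ * x) (XT ε T) t‖ := by
            rw [norm_mul, hnorm, one_mul]
            refine (norm_sub_le _ _).trans ?_
            rw [Complex.norm_real, Real.norm_eq_abs]
            linarith
          have h6 : ‖St B a U1 U2 (Λ * x) t‖ ≤ ‖St B a U1 U2 (Λ * x) t - cexp (I * (Λ * x : ℝ) * t) *
              ((Mu B a L (Λ * x) : ℝ) - DPq c B a (Λ * x) (XT ε T) t)‖ +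
              ‖cexp (I * (Λ * x : ℝ) * t) * ((Mu B a L (Λ * x) : ℝ) - DPq c B a (Λ * x) (XT ε T) t)‖ := by
            refine le_trans ?_ (norm_add_le _ _)
            rw [sub_add_cancel]
          linarith
        have h7 : ‖St B a U1 U2 (Λ * x) t‖ ^ 2 ≤ (1 + η) * ‖DPq c B a (Λ * x) (XT ε T) t‖ ^ 2 + (1 + 1 / η) := by
          refine (pow_le_pow_left₀ (norm_nonneg _) h4 2).trans ?_
          have := sq_split (x := ‖DPq c B a (Λ * x) (XT ε T) t‖) (y := 1) hη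
          linarith
        have hη1 : 0 ≤ 1 + 1 / η := by positivity
        calc Rf x * ‖St B a U1 U2 (Λ * x) t‖ ^ 2 ≤ Rf x * ((1 + η) * ‖DPq c B a (Λ * x) (XT ε T) t‖ ^ 2 +
              (1 + 1 / η)) := mul_le_mul_of_nonneg_left h7 r0
          _ = (1 + η) * (Rf x * ‖DPq c B a (Λ * x) (XT ε T) t‖ ^ 2) + (1 + 1 / η) * Rf x := by ring
          _ ≤ _ := by gcongr
    have h2 : ∫ x in (4 * τ)..1, ((1 + η) * (Rf x * ‖DPq c B a (Λ * x) (XT ε T) t‖ ^ 2) + (1 + 1 / η) * Rf 0) =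
        (1 + η) * (∫ x in (4 * τ)..1, Rf x * ‖DPq c B a (Λ * x) (XT ε T) t‖ ^ 2) + (1 - 4 * τ) *
          ((1 + 1 / η) * Rf 0) := by
      rw [intervalIntegral.integral_add, intervalIntegral.integral_const_mul, intervalIntegral.integral_const,
        smul_eq_mul]
      · exact (continuous_const.mul (hRc.mul (hDc.norm.pow 2))).intervalIntegrable _ _
      · exact continuous_const.intervalIntegrable _ _
    rw [h2] at h1
    have h3 : (1 - 4 * τ) * ((1 + 1 / η) * Rf 0) ≤ (1 + 1 / η) * Rf 0 := by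
      have : 0 ≤ (1 + 1 / η) * Rf 0 := mul_nonneg (by positivity) (hR0 0)
      nlinarith
    linarith
  linarith

/-- the block inequality -/
lemma block (hDI : P_DI) (hTRK : P_TRK) (hMN : P_MN) (hζ : GoodL riemannZeta) {j : ℕ} {C N : ℝ}
    (hW : Wf j C N B) (hN : 1 ≤ N) (hK : 0 < K) (hε : 0 < ε) (hε2 : ε < 1 / 2) (hτ : 0 < τ)
    (hτε : τ ≤ ε / 4) (hη : 0 < η) {L δ η1 N0 κ1 Y0 CS ε2 : ℝ} (hLd : L = Real.log T) (hL : 10 ≤ L) (hT : T + L ≤ 2 * T - L)
    (hU : 1 ≤ U1) (hδ : 0 < δ) (hδ1 : δ ≤ 1 / 10) (hη0 : 0 ≤ η1) (hη1 : η1 ≤ 1) (hN0 : 0 ≤ N0) (hY0 : 1 ≤ Y0)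
    (hker : ∀ u : ℂ, ‖u‖ ≤ 6 * (δ / L) → ‖kap (((1 - ε) * L : ℝ) * u) - 1‖ ≤ η1)
    (hEF : ∀ t u : ℝ, T + L ≤ t → t ≤ 2 * T - L → 0 ≤ u → u ≤ (1 - ε) * L →
      ‖St B (τ * L) U1 U2 u t - cexp (I * u * t) * ((Mu B (τ * L) L u : ℝ) -
        DPp c B (τ * L) u (XT ε T) t - DPm c B (τ * L) u (XT ε T) t)‖ ≤ 1 / 2)
    (hMs : ∀ u : ℝ, 2 * (τ * L) ≤ u → |Mu B (τ * L) L u| ≤ 1 / 2) (hCS : 0 < CS)
    (hSM : ∀ u : ℝ, 0 ≤ u → u ≤ (1 - ε) * L →
      ∫ t in (T + L)..(2 * T - L), ‖St B (τ * L) U1 U2 u t - cexp (I * u * t) * (Mu B (τ * L) L u : ℝ)‖ ^ 2 ≤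
      CS * K ^ 2 * (T * (1 + u / (τ * L))))
    (hERS : ∫ t in (T + L)..(2 * T - L), ∑ s ∈ Zf riemannZeta U1 U2, (mult riemannZeta s : ℝ) *
      err B (τ * L) N N0 κ1 Y0 L (δ / L) η1 t (zz s) ≤ ε2 * (N / τ * T))
    {S : Set ℝ} (hS : MeasurableSet S) (hSI : S ⊆ Set.Icc (T + L) (2 * T - L)) :
    volume.real S * (2 * Mu B (τ * L) L 0 - K - (1 + η) * (Rf 0 / ((1 - ε) * τ) * ∫ ξ in (-1:ℝ)..1, B ξ ^ 2) -
      (1 + 1 / η) * (2 * Rf 0)) - CS * K * T - (1 + 1 / η) * (2 * Rf 0) * (20 * τ * (CS * K ^ 2 * T)) -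
      (1 + η) * (∫ t in S, Dq Rf c B ε τ (4 * τ) T t) - 10 * (ε2 * (N / τ * T)) ≤
    2 * (N / (τ * L)) * ((@Finset.filter ℂ (fun s => ∃ t ∈ S, |s.im - t| ≤ N / (τ * L)) (Classical.decPred _)
      (isoS U1 U2 (δ / L))).card : ℝ) := by
  classical
  have hL0 : 0 < L := by linarith
  have hτL : 0 < τ * L := mul_pos hτ hL0
  have hT0 : 0 < T := by linarith
  have h4τ : 4 * τ ≤ 1 := by linarith
  have h4τ0 : 0 ≤ 4 * τ := by linarith
  have hSf : volume S ≠ ⊤ := ne_top_of_le_ne_top (by simp) (measure_mono hSI)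
  obtain ⟨hni, hn⟩ := count_int (isoS U1 U2 (δ / L)) S hS hSf (r := N / (τ * L)) (by positivity)
  refine le_trans ?_ hn
  set E : ℝ → ℝ := fun t => ∑ s ∈ Zf riemannZeta U1 U2, (mult riemannZeta s : ℝ) *
      err B (τ * L) N N0 κ1 Y0 L (δ / L) η1 t (zz s) with hE
  have hEi : IntegrableOn E (Set.Icc (T + L) (2 * T - L)) := by
    refine integrable_finsetSum _ fun s _ => ?_
    exact (err_int hW.cont _ _ _ _ _ _ _ _ hη0 _ _ _).const_mul _
  have hE0 : ∀ t, 0 ≤ E t := fun t => Finset.sum_nonneg fun s _ =>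
    mul_nonneg (Nat.cast_nonneg _) (err_nonneg _ _ _ _ _ _ _ _ _ hη0 _ _)
  -- the functions
  set g1 : ℝ → ℝ := fun t => Gd B (τ * L) L U1 U2 0 t with hg1
  set g2 : ℝ → ℝ := fun t => ∫ x in (0:ℝ)..(4 * τ), Gd B (τ * L) L U1 U2 ((1 - ε) * L * x) t with hg2
  have hg1c : Continuous g1 := by
    have h1 := (Gd_cont hW.cont (τ * L) L U1 U2).comp (f := fun t : ℝ => ((0:ℝ), t)) (by fun_prop)
    simpa only [Function.comp_def] using h1
  have hGc2 : Continuous (Function.uncurry fun t x : ℝ => Gd B (τ * L) L U1 U2 ((1 - ε) * L * x) t) := by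
    exact (Gd_cont hW.cont (τ * L) L U1 U2).comp (f := fun p : ℝ × ℝ => ((1 - ε) * L * p.2, p.1)) (by fun_prop)
  have hg2c : Continuous g2 := by
    apply intervalIntegral.continuous_parametric_intervalIntegral_of_continuous'
    exact hGc2
  have hDc : Continuous (fun t : ℝ => Dq Rf c B ε τ (4 * τ) T t) :=
    Dq_cont hW.cont hε hε2 hτ hτε le_rfl h4τ Rf_cont (by rw [← hLd]; exact hL0)
  set Mb := Rf 0 / ((1 - ε) * τ) * ∫ ξ in (-1:ℝ)..1, B ξ ^ 2 with hMb
  set q := (1 + 1 / η) * (2 * Rf 0) with hq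
  have hq0 : 0 ≤ q := mul_nonneg (by positivity) (mul_nonneg (by norm_num) (Rf_nonneg 0))
  -- the pointwise inequality
  have hpt : ∀ t ∈ S, (2 * Mu B (τ * L) L 0 - K - (1 + η) * Mb - q) - (1 / K) * g1 t - q * g2 t -
      (1 + η) * Dq Rf c B ε τ (4 * τ) T t ≤
      (((isoS U1 U2 (δ / L)).filter (fun s => |s.im - t| ≤ N / (τ * L))).card : ℝ) + 10 * E t := by
    intro t ht
    obtain ⟨ht1, ht2⟩ := hSI ht
    have h1 := pointwise hDI hTRK hζ hW (a := τ * L) (L := L) (Λ := (1 - ε) * L) (d := δ / L) (η1 := η1) (N0 := N0)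
      (κ1 := κ1) (Y0 := Y0) (t := t) (U1 := U1) (U2 := U2) hτL hU (mul_nonneg (by linarith) hL0.le)
      (by nlinarith) hL (by positivity) (by rw [div_mul_cancel₀ _ hL0.ne']; exact hδ1) hη0 hη1 hN0 hY0 hker
    have h2 := pair_term (B := B) (c := c) (ε := ε) (τ := τ) (η := η) (T := T) (U1 := U1) (U2 := U2) hW.cont hMN
      hW.even hε hε2 hτ hτε hη (by rw [← hLd]; exact hL0) (t := t) (by rw [← hLd]; exact fun u h3 h4 => hEF t u ht1 ht2 h3 h4)
      (by rw [← hLd]; exact hMs)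
    rw [← hLd] at h2
    have h3 : 2 * Mu B (τ * L) L 0 - K - (1 / K) * g1 t ≤ 2 * (St B (τ * L) U1 U2 0 t).re := by
      have h4 : g1 t = ‖St B (τ * L) U1 U2 0 t - (Mu B (τ * L) L 0 : ℝ)‖ ^ 2 := by
        simp only [hg1, Gd]
        congr 2
        simp
      have h5 : |(St B (τ * L) U1 U2 0 t - (Mu B (τ * L) L 0 : ℝ)).re| ≤
          ‖St B (τ * L) U1 U2 0 t - (Mu B (τ * L) L 0 : ℝ)‖ := Complex.abs_re_le_norm _
      rw [Complex.sub_re, Complex.ofReal_re] at h5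
      rw [h4]
      set y := ‖St B (τ * L) U1 U2 0 t - (Mu B (τ * L) L 0 : ℝ)‖
      have h6 : 2 * y ≤ K + 1 / K * y ^ 2 := by
        have : 0 ≤ (K - y) ^ 2 / K := by positivity
        have e : (K - y) ^ 2 / K = K - 2 * y + 1 / K * y ^ 2 := by
          field_simp
          ring
        rw [e] at this
        linarith
      linarith [(abs_le.1 h5).1]
    have h4 : q * g2 t = (1 + 1 / η) * (2 * Rf 0 * g2 t) := by rw [hq]; ring
    rw [h4]
    simp only [hg2, hE, hq]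
    linarith
  -- integration
  have hfin : IsFiniteMeasure (volume.restrict S) := ⟨by
    rw [Measure.restrict_apply_univ]; exact lt_top_iff_ne_top.2 hSf⟩
  have hcI : ∀ f : ℝ → ℝ, Continuous f → IntegrableOn f S := fun f hf =>
    (hf.continuousOn.integrableOn_compact isCompact_Icc).mono_set hSI
  have hmono := setIntegral_mono_on (μ := volume) (s := S)
    (f := fun t => (2 * Mu B (τ * L) L 0 - K - (1 + η) * Mb - q) - (1 / K) * g1 t - q * g2 t -
      (1 + η) * Dq Rf c B ε τ (4 * τ) T t)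
    (g := fun t => (((isoS U1 U2 (δ / L)).filter (fun s => |s.im - t| ≤ N / (τ * L))).card : ℝ) + 10 * E t)
    (hcI _ (by fun_prop)) (hni.add ((hEi.mono_set hSI).const_mul 10)) hS hpt
  rw [integral_add hni ((hEi.mono_set hSI).const_mul 10), integral_const_mul] at hmono
  have hI1 : IntegrableOn (fun _ : ℝ => (2 * Mu B (τ * L) L 0 - K - (1 + η) * Mb - q)) S := hcI _ continuous_const
  have hI2 : IntegrableOn (fun t : ℝ => (1 / K) * g1 t) S := hcI _ (by fun_prop)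
  have hI3 : IntegrableOn (fun t : ℝ => q * g2 t) S := hcI _ (by fun_prop)
  have hI4 : IntegrableOn (fun t : ℝ => (1 + η) * Dq Rf c B ε τ (4 * τ) T t) S := hcI _ (by fun_prop)
  have hI12 : IntegrableOn (fun t : ℝ => (2 * Mu B (τ * L) L 0 - K - (1 + η) * Mb - q) - (1 / K) * g1 t) S :=
    hI1.sub hI2
  have hI123 : IntegrableOn (fun t : ℝ => (2 * Mu B (τ * L) L 0 - K - (1 + η) * Mb - q) - (1 / K) * g1 t -
    q * g2 t) S := hI12.sub hI3
  rw [integral_sub hI123 hI4, integral_sub hI12 hI3, integral_sub hI1 hI2,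
    setIntegral_const, integral_const_mul, integral_const_mul, integral_const_mul, smul_eq_mul] at hmono
  -- bounds of the integrals
  have hb1 : ∫ t in S, g1 t ≤ CS * K ^ 2 * T := by
    have h1 : ∫ t in S, g1 t ≤ ∫ t in Set.Icc (T + L) (2 * T - L), g1 t := by
      refine setIntegral_mono_set (hg1c.continuousOn.integrableOn_compact isCompact_Icc) ?_
        (Filter.Eventually.of_forall hSI)
      refine Filter.Eventually.of_forall fun t => ?_
      simp only [hg1, Gd]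
      positivity
    have h2 := hSM 0 le_rfl (by nlinarith)
    rw [intervalIntegral.integral_of_le hT, ← integral_Icc_eq_integral_Ioc, zero_div, add_zero, mul_one] at h2
    exact h1.trans h2
  have hb2 : ∫ t in S, g2 t ≤ 20 * τ * (CS * K ^ 2 * T) := by
    have hg20 : ∀ t, 0 ≤ g2 t := fun t => intervalIntegral.integral_nonneg h4τ0 fun x _ => by
      unfold Gd; positivity
    have h1 : ∫ t in S, g2 t ≤ ∫ t in Set.Icc (T + L) (2 * T - L), g2 t :=
      setIntegral_mono_set (hg2c.continuousOn.integrableOn_compact isCompact_Icc)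
        (Filter.Eventually.of_forall hg20) (Filter.Eventually.of_forall hSI)
    have h2 : ∫ t in Set.Icc (T + L) (2 * T - L), g2 t =
        ∫ x in (0:ℝ)..(4 * τ), ∫ t in (T + L)..(2 * T - L), Gd B (τ * L) L U1 U2 ((1 - ε) * L * x) t := by
      rw [integral_Icc_eq_integral_Ioc, ← intervalIntegral.integral_of_le hT]
      refine MeasureTheory.intervalIntegral_intervalIntegral_swap ?_
      refine (hGc2.continuousOn.integrableOn_compact (K := Set.uIcc (T + L) (2 * T - L) ×ˢ Set.uIcc 0 (4 * τ)) ?_).mono_set ?_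
      · exact isCompact_uIcc.prod isCompact_uIcc
      · exact Set.prod_mono Set.uIoc_subset_uIcc Set.uIoc_subset_uIcc
    have h3 : ∫ x in (0:ℝ)..(4 * τ), ∫ t in (T + L)..(2 * T - L), Gd B (τ * L) L U1 U2 ((1 - ε) * L * x) t ≤
        ∫ _x in (0:ℝ)..(4 * τ), 5 * (CS * K ^ 2 * T) := by
      refine intervalIntegral.integral_mono_on h4τ0 ?_ (by simp) fun x hx => ?_
      · refine Continuous.intervalIntegrable ?_ _ _
        apply intervalIntegral.continuous_parametric_intervalIntegral_of_continuous'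
        exact (Gd_cont hW.cont (τ * L) L U1 U2).comp (f := fun p : ℝ × ℝ => ((1 - ε) * L * p.1, p.2)) (by fun_prop)
      · have hx1 : x ≤ 1 := hx.2.trans h4τ
        have hΛ : 0 ≤ (1 - ε) * L := mul_nonneg (by linarith) hL0.le
        have h4 := hSM ((1 - ε) * L * x) (mul_nonneg hΛ hx.1) (by
          calc (1 - ε) * L * x ≤ (1 - ε) * L * 1 := mul_le_mul_of_nonneg_left hx1 hΛ
            _ = _ := mul_one _)
        refine h4.trans ?_
        have h5 : (1 - ε) * L * x / (τ * L) ≤ 4 := by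
          rw [div_le_iff₀ hτL]
          have h6 : (1 - ε) * L * x ≤ 1 * L * (4 * τ) := by
            have := hx.2
            have := hx.1
            gcongr
            linarith
          linarith
        have h6 : T * (1 + (1 - ε) * L * x / (τ * L)) ≤ T * 5 :=
          mul_le_mul_of_nonneg_left (by linarith) hT0.le
        calc CS * K ^ 2 * (T * (1 + (1 - ε) * L * x / (τ * L))) ≤ CS * K ^ 2 * (T * 5) :=
              mul_le_mul_of_nonneg_left h6 (by positivity)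
          _ = _ := by ring
    rw [intervalIntegral.integral_const, smul_eq_mul, sub_zero] at h3
    rw [h2] at h1
    refine h1.trans (h3.trans (le_of_eq ?_))
    ring
  have hb3 : ∫ t in S, E t ≤ ε2 * (N / τ * T) := by
    have h1 : ∫ t in S, E t ≤ ∫ t in Set.Icc (T + L) (2 * T - L), E t :=
      setIntegral_mono_set hEi (Filter.Eventually.of_forall hE0) (Filter.Eventually.of_forall hSI)
    rw [integral_Icc_eq_integral_Ioc, ← intervalIntegral.integral_of_le hT] at h1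
    exact h1.trans hERS
  have hc1 : (1 / K) * ∫ t in S, g1 t ≤ CS * K * T := by
    calc (1 / K) * ∫ t in S, g1 t ≤ (1 / K) * (CS * K ^ 2 * T) := mul_le_mul_of_nonneg_left hb1 (by positivity)
      _ = _ := by field_simp
  have hc2 : q * ∫ t in S, g2 t ≤ q * (20 * τ * (CS * K ^ 2 * T)) := mul_le_mul_of_nonneg_left hb2 hq0
  linarith

end

end

end Pool.Agent.Y745.SW
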