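import Pool.Agent.Y745.SW.Blk5

set_option autoImplicit false

/-! The block theorem: proof. -/

namespace Pool.Agent.Y745.SW

open Filter Topology MeasureTheory Complex H370 TH803UC TH803CL

noncomputable section

theorem blk (hζ : GoodL riemannZeta) (hKER : P_KER) (hDI : P_DI) (hERS : P_ERS) (hTRK : P_TRK) (hMN : P_MN)
    (hDF : P_DF) (hEF : P_EF) (hSM : P_SM) : P_BLK := by
  classical
  intro ε hε hε1
  obtain ⟨j, τ0, hτ0, hτ01, hE⟩ := hERS
  obtain ⟨C, hC, hB⟩ := hKER j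
  obtain ⟨CD, hCD, hDFR⟩ := hDF Rf Rf_cont (fun x _ => Rf_nonneg x) (by
    obtain ⟨K, -, hK⟩ := Rf_lip
    exact ⟨K, hK⟩)
  obtain ⟨CS, hCS, hSM⟩ := hSM
  have hpi := Real.pi_pos
  set ε2 : ℝ := ε / (160 * Real.pi) with hε2
  obtain ⟨κ1, Y0, η1, N0, N1, hY0, hη10, hη11, hN0, hN1, hN01, hE⟩ := hE C hC ε2 (by positivity)
  obtain ⟨B, hW⟩ := hB N1 hN1
  obtain ⟨δ, hδ, hδ1, hker⟩ := kap_near hη10
  set N := N1 with hN
  set η : ℝ := ε / 64 with hη
  set εs : ℝ := ε / 64 with hεs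
  set q : ℝ := (1 + 1 / η) * (2 * Rf 0) with hq
  have hη0 : 0 < η := by positivity
  have hq0 : 0 ≤ q := mul_nonneg (by positivity) (mul_nonneg (by norm_num) (Rf_nonneg 0))
  have hN0' : 0 < N := by linarith
  -- the choice of `τ`
  obtain ⟨τ, hτ, hτa, hτb, hτ1, hτ2, hτ3, hτ4⟩ : ∃ τ : ℝ, 0 < τ ∧ τ ≤ τ0 ∧ τ ≤ εs / 4 ∧
      τ * (16 * Real.pi * (C * (1 + CS))) ≤ ε ∧ τ * (16 * Real.pi * (q + 4)) ≤ ε ∧
      τ * (320 * Real.pi * (q * CS * C ^ 2 * N)) ≤ ε ∧ τ * (32 * CD) ≤ ε := by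
    have hC0 : 0 < C := by linarith
    set W := 16 * Real.pi * (C * (1 + CS)) + 16 * Real.pi * (q + 4) +
      320 * Real.pi * (q * CS * C ^ 2 * N) + 32 * CD with hWd
    have w1 : 0 ≤ 16 * Real.pi * (C * (1 + CS)) := by positivity
    have w2 : 0 < 16 * Real.pi * (q + 4) := by positivity
    have w3 : 0 ≤ 320 * Real.pi * (q * CS * C ^ 2 * N) := by positivity
    have w4 : 0 ≤ 32 * CD := by positivity
    have hW0 : 0 < W := by rw [hWd]; linarith
    refine ⟨min (min τ0 (εs / 4)) (ε / W), by positivity, (min_le_left _ _).trans (min_le_left _ _),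
      (min_le_left _ _).trans (min_le_right _ _), ?_, ?_, ?_, ?_⟩
    all_goals
      have h1 : min (min τ0 (εs / 4)) (ε / W) ≤ ε / W := min_le_right _ _
      have h0 : 0 < min (min τ0 (εs / 4)) (ε / W) := by positivity
      have h2 : min (min τ0 (εs / 4)) (ε / W) * W ≤ ε := by
        rwa [le_div_iff₀ hW0] at h1
      refine le_trans (mul_le_mul_of_nonneg_left ?_ h0.le) h2
      rw [hWd]
      linarith
  have hτ64 : τ ≤ 1 / 256 := by
    refine hτb.trans ?_
    rw [hεs]; linarith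
  refine ⟨δ, N / τ, εs, τ, B, hδ, hδ1, by positivity, by positivity, by rw [hεs]; linarith, hτ, hτb, hW.cont, ?_⟩
  intro c C0 hc
  have hZq := Zq_le (c := c) hW.cont (ε := εs) (τ := τ) (ηs := 4 * τ) (by positivity) (by rw [hεs]; linarith) hτ hτb
    le_rfl (by linarith) hDF Rf_cont (fun x _ => Rf_nonneg x) (by
    obtain ⟨K, -, hK⟩ := Rf_lip
    exact ⟨K, hK⟩) hW.even hc hDFR
  refine ⟨⟨_, hZq⟩, ?_⟩
  obtain ⟨C1, hC1, hEF⟩ := hEF εs τ (by positivity) (by rw [hεs]; linarith) hτ hτb c C0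
  have hEF := hEF B (C * N) hW.cont hW.even hW.bd
  have hSM := hSM εs τ (by positivity) (by rw [hεs]; linarith) hτ hτb c C0 B (C * N) hW.cont hW.even hW.bd
  have hE := hE N τ le_rfl hτ hτa B hW
  -- the main term
  have hMu : ∀ᶠ T : ℝ in atTop, (1 - ε / 64) * (N / (Real.pi * τ)) ≤ Mu B (τ * Real.log T) (Real.log T) 0 := by
    have h1 := (Mu_lim hW.cont hτ).comp Real.tendsto_log_atTop
    rw [hW.zero] at h1
    refine (h1.eventually_const_le ?_)
    have h2 : N / Real.pi / τ = N / (Real.pi * τ) := by rw [div_div]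
    rw [h2]
    have h3 : 0 < N / (Real.pi * τ) := by positivity
    nlinarith
  have hlog := Real.tendsto_log_atTop
  have hTl : ∀ᶠ T : ℝ in atTop, T + Real.log T ≤ 2 * T - Real.log T := by
    have h1 := Real.isLittleO_log_id_atTop.def (c := 1 / 2) (by norm_num)
    filter_upwards [h1, eventually_ge_atTop 1] with T hT hT1
    rw [Real.norm_eq_abs, Real.norm_eq_abs, id, abs_of_pos (by linarith : 0 < T)] at hT
    have := le_abs_self (Real.log T)
    linarith
  have hsm1 : ∀ᶠ T : ℝ in atTop, C1 * (C * N) / Real.log T ≤ 1 / 2 := by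
    filter_upwards [hlog.eventually_ge_atTop (2 * (C1 * (C * N)) + 1)] with T hT
    have h0 : 0 ≤ C1 * (C * N) := by positivity
    rw [div_le_iff₀ (by linarith)]
    linarith
  have hsm2 : ∀ᶠ T : ℝ in atTop, 2 * (C * N) * (Real.log T * Real.exp (-(τ * Real.log T) ^ 2 / 2)) ≤ 1 / 2 :=
    hlog.eventually (tail_ev (C * N) τ hτ)
  filter_upwards [hZq, hEF, hSM, hE, hMu, hTl, hsm1, hsm2, hlog.eventually_ge_atTop 10, eventually_ge_atTop 1]
    with T tZ tEF tSM tE tMu tT t1 t2 tL tT1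
  intro U1 U2 hefd S hS hSI hDq
  set L := Real.log T with hL
  have hL0 : 0 < L := by linarith
  have hT0 : 0 < T := by linarith
  have hblk := block (B := B) (c := c) (ε := εs) (τ := τ) (η := η) (K := C * N) (T := T) (U1 := U1) (U2 := U2)
    hDI hTRK hMN hζ hW (by linarith) (by positivity) (by positivity) (by rw [hεs]; linarith) hτ hτb hη0
    (L := L) (δ := δ) (η1 := η1) (N0 := N0) (κ1 := κ1) (Y0 := Y0) (CS := CS) (ε2 := ε2) hL tL tT
    (by linarith [hefd.h1]) hδ hδ1 hη10.le hη11 (by linarith) hY0 ?_ ?_ ?_ hCS ?_ ?_ hS hSI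
  · -- final computation
    have hA0 : 0 ≤ volume.real S := measureReal_nonneg
    have hAT : volume.real S ≤ T := by
      have h1 : volume.real S ≤ volume.real (Set.Icc (T + L) (2 * T - L)) :=
        measureReal_mono hSI (by simp)
      rw [Real.volume_real_Icc_of_le tT] at h1
      linarith
    have hI0 : 0 ≤ ∫ ξ in (-1:ℝ)..1, B ξ ^ 2 :=
      intervalIntegral.integral_nonneg (by norm_num) fun x _ => sq_nonneg _
    have hR1 : 0 ≤ ∫ x in (0:ℝ)..1, x * Rf x :=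
      intervalIntegral.integral_nonneg (by norm_num) fun x hx => mul_nonneg hx.1 (Rf_nonneg x)
    have hh : N / τ / L = N / (τ * L) := by rw [div_div]
    rw [hh]
    exact final_calc (A := volume.real S) (T := T) (N := N) (τ := τ) (ε := ε) (c := cMTinv) (R0 := Rf 0)
      (R1 := ∫ x in (0:ℝ)..1, x * Rf x) (CD := CD) (CS := CS) (C := C) (K := C * N) (q := q) (η := η) (εs := εs)
      (ε2 := ε2) (M := N / (Real.pi * τ)) (I2 := ∫ ξ in (-1:ℝ)..1, B ξ ^ 2) (Mu0 := Mu B (τ * L) L 0)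
      (Z := Zq Rf c B εs τ (4 * τ) T) (DD := ∫ t in S, Dq Rf c B εs τ (4 * τ) T t) (L := L)
      hA0 hAT (by linarith) hτ (by linarith) hε hε1 Rf_const cMTinv_lt.le (Rf_nonneg 0) hR1 hCD hCS hC rfl rfl rfl rfl
      rfl hI0 hW.sq tMu tZ hDq hq0 hτ1 hτ2 hτ3 hτ4 hL0 rfl hblk
  · intro u hu
    refine hker _ ?_
    rw [norm_mul, Complex.norm_real, Real.norm_eq_abs, abs_of_nonneg (mul_nonneg (by rw [hεs]; linarith) hL0.le)]
    have h1 : (1 - εs) * L * ‖u‖ ≤ 1 * L * (6 * (δ / L)) := by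
      have : 0 < εs := by positivity
      gcongr
      linarith
    refine h1.trans (le_of_eq ?_)
    field_simp
  · intro t u h1 h2 h3 h4
    exact (tEF U1 U2 hefd t u h1 h2 h3 h4).trans t1
  · intro u hu
    exact (Mu_small hW.cont hW.bd (mul_pos hτ hL0) hL0 hu).trans t2
  · intro u h3 h4
    exact tSM U1 U2 hefd u h3 h4
  · exact tE (δ / L) (by positivity) (by gcongr; linarith) U1 U2 hefd.h1 hefd.h4 (T + L) (2 * T - L) tT

end

end Pool.Agent.Y745.SW
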