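import Pool.Agent.Y745.SW.Blk6
import Pool.Agent.H370R2.Dyadic
import Pool.Agent.H370R2.Count
import Pool.Agent.H370R2.DirGood
import Pool.Agent.H370R2.RightZeros

set_option autoImplicit false

/-! The law of the derivative in dyadic blocks. -/

namespace Pool.Agent.Y745.SW

open Filter Topology MeasureTheory Complex H370 TH803UC TH803CL

noncomputable section

/-- the normalised size of the derivative, at height `T` -/
def nrm (T y : ℝ) : ℝ :=
  Real.sqrt 2 * ((y - Real.log (Real.log T)) / Real.sqrt (Real.log (Real.log T)))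

/-- the Gaussian measure of an interval -/
def Gm01 (a b : ℝ) : ℝ := (ProbabilityTheory.gaussianReal 0 1).real (Set.Ioo a b)

lemma Gm01_nonneg (a b : ℝ) : 0 ≤ Gm01 a b := measureReal_nonneg

lemma Gm01_le (a b : ℝ) : Gm01 a b ≤ 1 := measureReal_le_one

lemma Gm01_shrink {a b : ℝ} (hab : a < b) {ε : ℝ} (hε : 0 < ε) :
    ∃ θ : ℝ, 0 < θ ∧ a + θ < b - θ ∧ Gm01 a b - ε ≤ Gm01 (a + θ) (b - θ) := by
  set s : ℕ → Set ℝ := fun n => Set.Ioo (a + 1 / ((n:ℝ) + 1)) (b - 1 / ((n:ℝ) + 1)) with hs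
  have hmono : Monotone s := by
    intro m n hmn
    have h1 : 1 / ((n:ℝ) + 1) ≤ 1 / ((m:ℝ) + 1) := by
      have : (m:ℝ) ≤ n := by exact_mod_cast hmn
      gcongr
    exact Set.Ioo_subset_Ioo (by linarith) (by linarith)
  have hU : ⋃ n, s n = Set.Ioo a b := by
    ext x
    simp only [hs, Set.mem_iUnion, Set.mem_Ioo]
    constructor
    · rintro ⟨n, h1, h2⟩
      have : 0 < 1 / ((n:ℝ) + 1) := by positivity
      constructor <;> linarith
    · rintro ⟨h1, h2⟩
      obtain ⟨n, hn⟩ := exists_nat_one_div_lt (show 0 < min (x - a) (b - x) by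
        rw [lt_min_iff]; constructor <;> linarith)
      refine ⟨n, ?_, ?_⟩
      · have := hn.trans_le (min_le_left _ _); linarith
      · have := hn.trans_le (min_le_right _ _); linarith
  have ht := tendsto_measure_iUnion_atTop (μ := ProbabilityTheory.gaussianReal 0 1) hmono
  rw [hU] at ht
  have ht2 : Tendsto (fun n => (ProbabilityTheory.gaussianReal 0 1).real (s n)) atTop (𝓝 (Gm01 a b)) :=
    (ENNReal.tendsto_toReal (measure_ne_top _ _)).comp ht
  have h1 : ∀ᶠ n : ℕ in atTop, Gm01 a b - ε ≤ (ProbabilityTheory.gaussianReal 0 1).real (s n) :=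
    ht2.eventually_const_le (by linarith)
  have h2 : ∀ᶠ n : ℕ in atTop, 1 / ((n:ℝ) + 1) < (b - a) / 2 :=
    tendsto_one_div_add_atTop_nhds_zero_nat.eventually_lt_const (by linarith)
  obtain ⟨n, h3, h4⟩ := (h1.and h2).exists
  refine ⟨1 / ((n:ℝ) + 1), by positivity, by linarith, h3⟩

lemma loglog_tendsto : Tendsto (fun T : ℝ => Real.log (Real.log T)) atTop atTop :=
  Real.tendsto_log_atTop.comp Real.tendsto_log_atTop

open Classical in
/-- the law of the derivative in a dyadic block -/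
theorem block_law (hζ : GoodL riemannZeta) (hBLK : P_BLK) (hIND : P_IND) (hBV : P_BV) (hDER : P_DER)
    {a b ε : ℝ} (hab : a < b) (hε : 0 < ε) : ∃ δ : ℝ, 0 < δ ∧ δ ≤ 1 / 10 ∧ ∀ᶠ T : ℝ in atTop,
    ∃ U1 U2 : ℝ, T ≤ U1 ∧ U1 ≤ T + 1 ∧ 2 * T - 1 ≤ U2 ∧ U2 ≤ 2 * T ∧
    ((2 - cMTinv) * Gm01 a b - ε) * (T * (Real.log T / (2 * Real.pi))) ≤
      (((isoS U1 U2 (δ / Real.log T)).filter (fun s => T + 2 ≤ s.im ∧ s.im ≤ 2 * T - 2 ∧
        a < nrm T (Real.log ‖deriv riemannZeta s‖) ∧ nrm T (Real.log ‖deriv riemannZeta s‖) < b)).card : ℝ) := by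
  obtain ⟨θ, hθ, hab', hG⟩ := Gm01_shrink hab (show 0 < ε / 8 by positivity)
  obtain ⟨δ, h, εs, τ, B, hδ, hδ1, hh, hεs, hεs2, hτ, hτε, hB, hblk⟩ := hBLK (min (ε / 8) 1) (by positivity)
    (min_le_right _ _)
  refine ⟨δ, hδ, hδ1, ?_⟩
  obtain ⟨c, hc, C0, T0, hC0, hT0, hef⟩ := explicit_formula hζ
  obtain ⟨⟨K0, hK0⟩, hblk⟩ := hblk c C0 hc
  set K1 : ℝ := |K0| + 1 with hK1
  have hK10 : 0 < K1 := by positivity
  set δ' : ℝ := min (ε / 16) (1 / (4 * K1)) with hδ'
  have hδ'0 : 0 < δ' := by positivity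
  have hδ'1 : δ' ≤ ε / 16 := min_le_left _ _
  have hδ'2 : δ' * K1 ≤ 1 / 4 := by
    have : δ' ≤ 1 / (4 * K1) := min_le_right _ _
    calc δ' * K1 ≤ 1 / (4 * K1) * K1 := mul_le_mul_of_nonneg_right this hK10.le
      _ = 1 / 4 := by field_simp
  have hδ'3 : δ' ≤ 1 / 4 := by
    have : 1 ≤ K1 := by rw [hK1]; linarith [abs_nonneg K0]
    nlinarith
  have h4τ : 4 * τ ≤ 1 := by linarith
  have hind := hIND Rf Rf_cont (fun x _ => Rf_nonneg x) B hB c hc εs τ (4 * τ) hεs hεs2 hτ hτε le_rfl h4τ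
    ⟨K0, hK0⟩ (a + θ) (b - θ) δ' hab' hδ'0
  set ε3 : ℝ := min (ε / (16 * Real.pi)) (θ / 4) with hε3
  have hpi := Real.pi_pos
  have hε30 : 0 < ε3 := by positivity
  have hbv := hBV h δ' hh hδ'0
  have hder := hDER δ ε3 hδ hδ1 hε30
  have hσ : ∀ᶠ T : ℝ in atTop, 8 / θ ≤ Real.sqrt (Real.log (Real.log T)) :=
    (Real.tendsto_sqrt_atTop.comp loglog_tendsto).eventually_ge_atTop _
  filter_upwards [hblk, hK0, hind, hbv, hder, hσ, Real.tendsto_log_atTop.eventually_ge_atTop (h + 10),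
    eventually_ge_atTop T0, eventually_ge_atTop 10] with T tblk tK0 tind tbv tder tσ tL tT0 tT1
  obtain ⟨U1, U2, hU1, hU1', hU2, hU2', heft⟩ := hef T tT0
  refine ⟨U1, U2, hU1, hU1', hU2, hU2', ?_⟩
  have hefd : EFD c C0 T U1 U2 := ⟨hc, hU1, hU1', hU2, hU2', heft⟩
  obtain ⟨tm, tI1, tI2⟩ := tind
  obtain ⟨Bd, hBdm, hBd1, hBd2, hBd3⟩ := tbv
  set L := Real.log T with hL
  set σ := Real.sqrt (Real.log L) with hσd
  have hL0 : 0 < L := by linarith
  have hT0 : 0 < T := by linarith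
  have hσ0 : 0 < σ := lt_of_lt_of_le (by positivity) tσ
  set G' : ℝ := (ProbabilityTheory.gaussianReal 0 1).real (Set.Ioo (a + θ) (b - θ)) with hG'
  have hG'0 : 0 ≤ G' := measureReal_nonneg
  have hG'1 : Gm01 a b - ε / 8 ≤ G' := hG
  set SS := SB (a + θ) (b - θ) T with hSS
  have hSSI : SS ⊆ Set.Icc (T + L) (2 * T - L) := fun t ht => ht.1
  have hSSf : volume SS ≠ ⊤ := ne_top_of_le_ne_top (by simp) (measure_mono hSSI)
  set S := SS \ Bd with hS
  have hSm : MeasurableSet S := tm.diff hBdm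
  have hSI : S ⊆ Set.Icc (T + L) (2 * T - L) := fun t ht => hSSI ht.1
  -- the measure of `S`
  have hvol : volume.real SS ≤ volume.real S + volume.real Bd := by
    have h1 : SS ⊆ S ∪ Bd := fun t ht => by
      by_cases h : t ∈ Bd
      · exact Or.inr h
      · exact Or.inl ⟨ht, h⟩
    have hSf : volume S ≠ ⊤ := ne_top_of_le_ne_top (by simp) (measure_mono hSI)
    have hBf : volume Bd ≠ ⊤ := ne_top_of_le_ne_top (by simp) (measure_mono hBd1)
    refine (measureReal_mono h1 ?_).trans (measureReal_union_le _ _)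
    exact (measure_union_lt_top (lt_top_iff_ne_top.2 hSf) (lt_top_iff_ne_top.2 hBf)).ne
  have hSlow : T * G' - 2 * δ' * T ≤ volume.real S := by
    have := (abs_le.1 tI1).1
    linarith
  -- the weight
  have hZ0 : 0 ≤ Zq Rf c B εs τ (4 * τ) T := by
    unfold Zq
    refine mul_nonneg (by norm_num) (intervalIntegral.integral_nonneg h4τ fun y hy => ?_)
    exact mul_nonneg (Rf_nonneg y) (Finset.sum_nonneg fun n _ => by positivity)
  have hZK : Zq Rf c B εs τ (4 * τ) T ≤ K1 := by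
    have := le_abs_self K0
    rw [hK1]; linarith
  have hDqc : Continuous (fun t : ℝ => Dq Rf c B εs τ (4 * τ) T t) :=
    Dq_cont hB hεs hεs2 hτ hτε le_rfl h4τ Rf_cont hL0
  have hDq0 : ∀ t, 0 ≤ Dq Rf c B εs τ (4 * τ) T t := fun t =>
    Dq_nonneg hεs hεs2 hτ hτε le_rfl h4τ (fun x _ => Rf_nonneg x) t
  have hDqS : (∫ t in S, Dq Rf c B εs τ (4 * τ) T t) ≤ volume.real S * Zq Rf c B εs τ (4 * τ) T + T := by
    have h1 : (∫ t in S, Dq Rf c B εs τ (4 * τ) T t) ≤ ∫ t in SS, Dq Rf c B εs τ (4 * τ) T t :=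
      setIntegral_mono_set ((hDqc.continuousOn.integrableOn_compact isCompact_Icc).mono_set hSSI)
        (Filter.Eventually.of_forall hDq0) (Filter.Eventually.of_forall fun t ht => ht.1)
    have h2 := (abs_le.1 tI2).2
    have h3 : T * G' * Zq Rf c B εs τ (4 * τ) T ≤ (volume.real S + 2 * δ' * T) * Zq Rf c B εs τ (4 * τ) T :=
      mul_le_mul_of_nonneg_right (by linarith) hZ0
    have h4 : 2 * δ' * T * Zq Rf c B εs τ (4 * τ) T ≤ 2 * T * (1 / 4) := by
      have h5 : δ' * Zq Rf c B εs τ (4 * τ) T ≤ 1 / 4 :=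
        (mul_le_mul_of_nonneg_left hZK hδ'0.le).trans hδ'2
      nlinarith
    nlinarith
  have hmain := tblk U1 U2 hefd S hSm hSI hDqS
  have hbad := tder U1 U2 hU1 hU1' hU2 hU2'
  -- the counting
  set I := isoS U1 U2 (δ / L) with hI
  set near := I.filter (fun s => ∃ t ∈ S, |s.im - t| ≤ h / L) with hnear
  set bad := I.filter (fun s => T + 2 ≤ s.im ∧ s.im ≤ 2 * T - 2 ∧ ε3 * σ < |Real.log ‖deriv riemannZeta s‖ -
    Real.log L - (Px T s.im).re|) with hbadd
  set good := I.filter (fun s => T + 2 ≤ s.im ∧ s.im ≤ 2 * T - 2 ∧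
        a < nrm T (Real.log ‖deriv riemannZeta s‖) ∧ nrm T (Real.log ‖deriv riemannZeta s‖) < b) with hgood
  have hsub : near ⊆ good ∪ bad := by
    intro s hs
    rw [hnear, Finset.mem_filter] at hs
    obtain ⟨hsI, t, htS, hst⟩ := hs
    obtain ⟨⟨⟨ht1, ht2⟩, ht3, ht4⟩, htB⟩ := htS
    have hhL : h / L ≤ 1 := by rw [div_le_one hL0]; linarith
    have hst' := abs_le.1 (hst.trans hhL)
    have hs1 : T + 2 ≤ s.im := by linarith [hst'.1]
    have hs2 : s.im ≤ 2 * T - 2 := by linarith [hst'.2]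
    rw [Finset.mem_union]
    by_cases hbd : ε3 * σ < |Real.log ‖deriv riemannZeta s‖ - Real.log L - (Px T s.im).re|
    · right
      rw [hbadd, Finset.mem_filter]
      exact ⟨hsI, hs1, hs2, hbd⟩
    · left
      rw [hgood, Finset.mem_filter]
      push Not at hbd
      have h1 := hBd3 t ⟨by linarith, by linarith⟩ htB (s.im - t) hst
      rw [add_sub_cancel] at h1
      have h2 := (Complex.abs_re_le_norm _).trans h1
      rw [Complex.sub_re] at h2
      set y := Real.log ‖deriv riemannZeta s‖ with hy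
      have h3 : |(y - Real.log L) - (Px T t).re| ≤ ε3 * σ + 1 := by
        have e : (y - Real.log L) - (Px T t).re = (y - Real.log L - (Px T s.im).re) +
          ((Px T s.im).re - (Px T t).re) := by ring
        rw [e]
        exact (abs_add_le _ _).trans (add_le_add hbd h2)
      have h4 : |(y - Real.log L) / σ - (Px T t).re / σ| ≤ ε3 + 1 / σ := by
        rw [← sub_div, abs_div, abs_of_pos hσ0, div_le_iff₀ hσ0]
        refine h3.trans (le_of_eq ?_)
        field_simp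
      have h5 : 1 / σ ≤ θ / 8 := by
        rw [div_le_div_iff₀ hσ0 (by norm_num)]
        rw [div_le_iff₀ hθ] at tσ
        linarith
      have h6 : ε3 ≤ θ / 4 := min_le_right _ _
      have h7 : Real.sqrt 2 ≤ 2 := by
        rw [Real.sqrt_le_left (by norm_num)]; norm_num
      have h8 := Real.sqrt_nonneg 2
      have h9 : |nrm T y - Real.sqrt 2 * ((Px T t).re / σ)| ≤ θ := by
        unfold nrm
        rw [← hL, ← hσd, ← mul_sub, abs_mul, abs_of_nonneg h8]
        calc Real.sqrt 2 * |(y - Real.log L) / σ - (Px T t).re / σ| ≤ 2 * (ε3 + 1 / σ) := by gcongr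
          _ ≤ θ := by linarith
      have h10 := abs_le.1 h9
      refine ⟨hsI, hs1, hs2, ?_, ?_⟩
      · linarith [h10.1]
      · linarith [h10.2]
  have hcard : (near.card : ℝ) ≤ good.card + bad.card := by
    exact_mod_cast (Finset.card_le_card hsub).trans (Finset.card_union_le _ _)
  -- conclusion
  have hcM1 : 1 < cMTinv := cMTinv_gt_one
  have hcM2 := cMTinv_lt
  have hlow : ((2 - cMTinv) * volume.real S - min (ε / 8) 1 * T) * (L / (2 * Real.pi)) ≥
      ((2 - cMTinv) * Gm01 a b - ε / 2) * (T * (L / (2 * Real.pi))) := by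
    have e : ((2 - cMTinv) * Gm01 a b - ε / 2) * (T * (L / (2 * Real.pi))) =
      (((2 - cMTinv) * Gm01 a b - ε / 2) * T) * (L / (2 * Real.pi)) := by ring
    rw [e]
    refine mul_le_mul_of_nonneg_right ?_ (by positivity)
    have h1 : min (ε / 8) 1 * T ≤ ε / 8 * T := mul_le_mul_of_nonneg_right (min_le_left _ _) hT0.le
    have h2 : (2 - cMTinv) * (T * G' - 2 * δ' * T) ≤ (2 - cMTinv) * volume.real S :=
      mul_le_mul_of_nonneg_left hSlow (by linarith)
    have h3 : (2 - cMTinv) * (T * (Gm01 a b - ε / 8)) ≤ (2 - cMTinv) * (T * G') :=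
      mul_le_mul_of_nonneg_left (mul_le_mul_of_nonneg_left hG'1 hT0.le) (by linarith)
    have h4 : (2 - cMTinv) * (T * (ε / 8) + 2 * δ' * T) ≤ 1 * (T * (ε / 8) + 2 * (ε / 16) * T) := by
      have : 2 - cMTinv ≤ 1 := by linarith
      gcongr
    nlinarith
  have hε3b : ε3 * (T * L) ≤ (ε / 8) * (T * (L / (2 * Real.pi))) := by
    have h1 : ε3 ≤ ε / (16 * Real.pi) := min_le_left _ _
    calc ε3 * (T * L) ≤ ε / (16 * Real.pi) * (T * L) := mul_le_mul_of_nonneg_right h1 (by positivity)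
      _ = _ := by field_simp; ring
  have hpos : 0 ≤ T * (L / (2 * Real.pi)) := by positivity
  have hfin : ((2 - cMTinv) * Gm01 a b - ε / 2) * (T * (L / (2 * Real.pi))) ≤ good.card + ε3 * (T * L) := by
    refine (le_trans hlow hmain).trans (hcard.trans ?_)
    exact add_le_add_right hbad _
  nlinarith

end

end Pool.Agent.Y745.SW
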